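import Mathlib
import Pool.Agent.ZF.BoxE
import Pool.Agent.Q1.M4.Main
import Pool.Agent.H47.NC.Defs

set_option autoImplicit false
open Finset

/-! # (c): from zero-freeness to the relative form of `N1` and to `HolDob`. Interface.

`y ^ 4 = X` is the variable of the winding: a strand which reaches the corner `c` with the turning index
`K` (quarter turns) has the weight `y ^ K`. `y = e^{-iπ/6}` is the parafermion, because `K ≡ ty` mod 4 and
`w6 = i e^{-iπ/6}`: `X.inc c = i ^ (ty c) * gn X e^{-iπ/6} c` (`inc_eq_gn`). -/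

namespace Pool.Agent.H53.ZF

open Pool.Agent.H75.Perc Pool.Agent.H75.TwoArm Pool.Agent.Q1 Pool.Agent.H47.NC Pool.Agent.ZF
open Pool.Agent.H99.NC Pool.Agent.Q1.M6c

/-- the strand of the root passes through `c` -/
def Vis (X : Env) (c : ℤ × ℤ) (ω : Finset (ℤ × ℤ)) : Prop := ∃ i < X.len ω, X.z ω i = c

/-- generating function of the turning index at the corner `c`, weights `t` for the open tiles -/
noncomputable def genT (X : Env) (t : ℤ × ℤ → ℝ) (y : ℂ) (c : ℤ × ℤ) : ℂ :=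
  ∑ ω ∈ X.E.powerset, (∏ a ∈ ω, (t a : ℂ)) * at' X y ω c

/-- generating function of the turning index at the corner `c` (normalised) -/
noncomputable def gn (X : Env) (y : ℂ) (c : ℤ × ℤ) : ℂ :=
  (1 / 2 : ℂ) ^ X.E.card * ∑ ω ∈ X.E.powerset, at' X y ω c

/-- **(ZF)** for plane environments, all positive weights, all corners. -/
def ZFE : Prop := ∀ (X : Env) (W : Finset (ℤ × ℤ)), PlaneEnv X W → ∀ c : ℤ × ℤ,
  (∃ ω ⊆ X.E, Vis X c ω) → ∀ t : ℤ × ℤ → ℝ, (∀ e, 0 < t e) → ∀ y : ℂ, y ≠ 0 →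
  |y.arg| < Real.pi / 4 → genT X t y c ≠ 0

/-- the corners at the vertex `v`, counterclockwise -/
def crn (v : ℤ × ℤ) (i : ℕ) : ℤ × ℤ := nxC^[i] (2 * v.1, 2 * v.2)

/-- sum of the probabilities of the passages at the four corners of `v` -/
noncomputable def hv (X : Env) (v : ℤ × ℤ) : ℝ :=
  ∑ i ∈ range 4, PrP (fun _ => 1 / 2) X.E (Vis X (crn v i))

/-- **(c2)**, unit circle: mixing. -/
def MX (K : Env → Prop) : Prop := ∀ A : ℕ, ∃ η : ℝ, 0 < η ∧ ∃ N0 : ℕ, ∀ N : ℕ, N0 ≤ N →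
  ∀ X, K X → ∀ v, Bq v N ⊆ X.E → (N : ℝ)⁻¹ ^ A ≤ hv X v → ∀ y : ℂ, ‖y‖ = 1 → ∀ i : ℕ,
  ‖gn X y (crn v (i + 1)) ^ 2 - gn X y (crn v i) * gn X y (crn v (i + 2))‖ ≤
    (N : ℝ) ^ (-η) * hv X v ^ 2

/-- **relative N1** (with an error which is far below all probabilities which matter) -/
def RelN1 (K : Env → Prop) : Prop := ∀ ε : ℝ, 0 < ε → ∃ N0 : ℕ, ∀ N : ℕ, N0 ≤ N →
  ∀ X, K X → ∀ c, Bq (vx c) N ⊆ X.E →
  ‖X.inc (nxC c) - Complex.I * X.inc c‖ ≤ ε * ‖X.inc c‖ + (N : ℝ)⁻¹ ^ 9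

/-- (c1): to be proved (53 + 95) -/
def C1 : Prop := ZFE → MX PlaneK → RelN1 PlaneK

/-- (c3): to be proved (79) -/
def C3 : Prop := RelN1 PlaneK → M4.HolDob

end Pool.Agent.H53.ZF
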