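import Mathlib
import Pool.Agent.H53.ZF.Def
import Pool.Agent.H75.TwoArm.Corr
import Pool.Agent.H65.G1.Tips

set_option autoImplicit false
open Finset

/-! # (c2): geometry of the coupling, definitions

Everything is centred at the origin. `BB R` = labels of the box `[-R,R]²`. The root strand is explored
from both ends until it hits `BB R`. -/

namespace Pool.Agent.H53.ZF

open Pool.Agent.H75.Perc Pool.Agent.H75.TwoArm Pool.Agent.Q1 Pool.Agent.H47.NC Pool.Agent.ZF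
open Pool.Agent.H99.NC Pool.Agent.Q1.M6c Pool.Agent.H65.Four2

/-- General plane environment: the root strand is the strand of `ω ∪ W` (no condition on the outside). -/
structure GE (X : Env) (W : Finset (ℤ × ℤ)) : Prop where
  disj : Disjoint X.E W
  oddW : ∀ e ∈ W, (e.1 + e.2) % 2 = 1
  zz : ∀ ω ⊆ X.E, ∀ i, X.z ω i = (nx (ω ∪ W))^[i] X.c0
  KK' : ∀ ω ⊆ X.E, ∀ i, X.K ω i = KK (nx (ω ∪ W)) (del (ω ∪ W)) X.c0 X.k0 i

/-! ### Exploration from both ends -/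

/-- `a` is the first corner of the strand from `c0` in front of a label of `B` -/
def TipF (w B : Finset (ℤ × ℤ)) (c0 a : ℤ × ℤ) : Prop :=
  ∃ n : ℕ, (nx w)^[n] c0 = a ∧ lab a ∈ B ∧ ∀ i < n, lab ((nx w)^[i] c0) ∉ B

/-- `b` is the first corner of the backward strand from `c0` behind a label of `B` -/
def TipB (w B : Finset (ℤ × ℤ)) (c0 b : ℤ × ℤ) : Prop :=
  ∃ n : ℕ, (pv w)^[n] c0 = b ∧ plab b ∈ B ∧ ∀ i < n, plab ((pv w)^[i] c0) ∉ B

/-- the label `e` is met by one of the two strands before they hit `B` -/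
def MetL (w B : Finset (ℤ × ℤ)) (c0 e : ℤ × ℤ) : Prop :=
  (∃ n : ℕ, lab ((nx w)^[n] c0) = e ∧ ∀ i ≤ n, lab ((nx w)^[i] c0) ∉ B) ∨
  (∃ n : ℕ, plab ((pv w)^[n] c0) = e ∧ ∀ i ≤ n, plab ((pv w)^[i] c0) ∉ B)

open Classical in
/-- the explored labels of `E` -/
noncomputable def ExL (E w B : Finset (ℤ × ℤ)) (c0 : ℤ × ℤ) : Finset (ℤ × ℤ) :=
  E.filter (MetL w B c0)

/-- the root strand hits `BB R` -/
def Alive (R : ℤ) (w : Finset (ℤ × ℤ)) (c0 : ℤ × ℤ) : Prop := ∃ a, TipF w (BB R) c0 a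

/-- distance of the label `e` from the point `q` at most `ρ` -/
def NearL (q : ℤ × ℤ) (ρ : ℤ) (e : ℤ × ℤ) : Prop := |e.1 - 2 * q.1| ≤ 2 * ρ ∧ |e.2 - 2 * q.2| ≤ 2 * ρ

/-- an explored label, or the next label of a tip, is close to a corner of the box or to the point of the
gate -/
def Near (R u : ℤ) (w : Finset (ℤ × ℤ)) (c0 : ℤ × ℤ) : Prop :=
  ∃ q : ℤ × ℤ, (q = (R, R) ∨ q = (-R, R) ∨ q = (-R, -R) ∨ q = (R, -R) ∨ q = (R, 0)) ∧
    ∃ e, NearL q (40 * u) e ∧ (MetL w (BB R) c0 e ∨ (∃ a, TipF w (BB R) c0 a ∧ lab a = e) ∨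
      (∃ b, TipB w (BB R) c0 b ∧ plab b = e))

/-- the two tips are close to each other -/
def Close (R u : ℤ) (w : Finset (ℤ × ℤ)) (c0 : ℤ × ℤ) : Prop :=
  ∃ a b, TipF w (BB R) c0 a ∧ TipB w (BB R) c0 b ∧
    |(vx a).1 - (vx b).1| ≤ 20 * u ∧ |(vx a).2 - (vx b).2| ≤ 20 * u

/-- good state -/
def Nice (R u : ℤ) (w : Finset (ℤ × ℤ)) (c0 : ℤ × ℤ) : Prop :=
  Alive R w c0 ∧ ¬ Near R u w c0 ∧ ¬ Close R u w c0

/-! ### Mixed crossing events -/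

/-- a rectangle with a direction of crossing (`v = true`: vertical) -/
structure Rc where
  v : Bool
  a : ℤ
  b : ℤ
  c : ℤ
  d : ℤ

/-- the rectangle is crossed -/
def Rc.cr (ρ : Rc) (ω : Finset (ℤ × ℤ)) : Prop :=
  if ρ.v then VC ρ.a ρ.b ρ.c ρ.d ω else HC ρ.a ρ.b ρ.c ρ.d ω

/-- rotation by a right angle (vertices): `(x, y) ↦ (-y, x)` -/
def Rc.rot (ρ : Rc) : Rc := ⟨!ρ.v, -ρ.d, -ρ.c, ρ.a, ρ.b⟩

/-- rotation by a right angle (faces): `(x, y) ↦ (1 - y, x)` -/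
def Rc.rotd (ρ : Rc) : Rc := ⟨!ρ.v, 1 - ρ.d, 1 - ρ.c, ρ.a, ρ.b⟩

/-- labels of the rectangle -/
noncomputable def Rc.lb (ρ : Rc) : Finset (ℤ × ℤ) := Bx ρ.a ρ.b ρ.c ρ.d

/-- a list of rectangles with open crossings and a list of rectangles with dual crossings; the labels of
`U` are regarded as open for the first and as closed for the second list -/
def Holds (O D : List Rc) (E w U : Finset (ℤ × ℤ)) : Prop :=
  (∀ ρ ∈ O, ρ.cr (w ∪ U)) ∧ (∀ ρ ∈ D, ρ.cr (du E (w \ U)))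

/-! outer part, tip at `(R, y)` -/

def hookO (R u y : ℤ) : List Rc :=
  [⟨false, R - 20 * u, R + 2 * u, y - 2 * u, y - u⟩, ⟨true, R + u, R + 2 * u, y - 2 * u, y + 2 * u⟩,
    ⟨false, R - 1, R + 2 * u, y + u, y + 2 * u⟩]

def hookD (R u y : ℤ) : List Rc :=
  [⟨false, R - 28 * u, R + 8 * u, y + 4 * u, y + 8 * u⟩, ⟨true, R + 4 * u, R + 8 * u, y - 8 * u, y + 8 * u⟩,
    ⟨false, R - 1, R + 8 * u, y - 8 * u, y - 4 * u⟩]

/-- open ring with a gap for the dual strip of the hook -/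
def ringO (R u y : ℤ) : List Rc :=
  [⟨true, R - 20 * u, R - 16 * u, -(R - 16 * u), y + 3 * u⟩,
    ⟨true, R - 20 * u, R - 16 * u, y + 9 * u, R - 16 * u⟩,
    ⟨false, -(R - 16 * u), R - 16 * u, R - 20 * u, R - 16 * u⟩,
    ⟨true, -(R - 16 * u), -(R - 20 * u), -(R - 16 * u), R - 16 * u⟩,
    ⟨false, -(R - 16 * u), R - 16 * u, -(R - 16 * u), -(R - 20 * u)⟩]

/-- dual ring with a gap for the gate (not rotated) -/
def ringD (R u : ℤ) : List Rc :=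
  [⟨true, R - 28 * u, R - 24 * u, -(R - 24 * u), -(2 * u)⟩,
    ⟨true, R - 28 * u, R - 24 * u, 2 * u, R - 24 * u⟩,
    ⟨false, -(R - 24 * u), R - 24 * u, R - 28 * u, R - 24 * u⟩,
    ⟨true, -(R - 24 * u), -(R - 28 * u), -(R - 24 * u), R - 24 * u⟩,
    ⟨false, -(R - 24 * u), R - 24 * u, -(R - 24 * u), -(R - 28 * u)⟩]

/-! inner part (right side), units `s`, exits `t1` (forward), `t2` (backward) of `[-2L,r] × [-2L,2L]` -/

/-- vertical corridor and gate -/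
def gateO (R u s r L : ℤ) : List Rc :=
  [⟨true, r + 16 * s, r + 20 * s, -(2 * L), 2 * L⟩, ⟨false, r + 16 * s, R - 16 * u, -u, u⟩]

def innO (s r t1 : ℤ) : List Rc :=
  [⟨false, r - 2 * s, r + 20 * s, t1 + s, t1 + 2 * s⟩, ⟨true, r - 2 * s, r - s, t1 - 2 * s, t1 + 2 * s⟩,
    ⟨false, r - 2 * s, r + 1, t1 - 2 * s, t1 - s⟩]

def innD (R u s r t1 t2 : ℤ) : List Rc :=
  [⟨false, r + 1 - 2 * s, r + 8 * s, t2 + 1 + s, t2 + 1 + 2 * s⟩,
    ⟨true, r + 1 - 2 * s, r + 1 - s, t2 + 1 - 2 * s, t2 + 1 + 2 * s⟩,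
    ⟨false, r + 1 - 2 * s, r + 2, t2 + 1 - 2 * s, t2 + 1 - s⟩,
    if t1 < t2 then ⟨true, r + 4 * s, r + 8 * s, t2 + 1 + s, R - 24 * u⟩
      else ⟨true, r + 4 * s, r + 8 * s, -(R - 24 * u), t2 + 1 + 2 * s⟩]

/-- all open rectangles; the tip is at the side `i` (`= 0` right, `1` top, `2` left, `3` bottom), at
`rot^i (R, y)` -/
def allO (i : ℕ) (R u s r L y t1 : ℤ) : List Rc :=
  ((hookO R u y ++ ringO R u y).map (Rc.rot^[i])) ++ gateO R u s r L ++ innO s r t1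

/-- all dual rectangles -/
def allD (i : ℕ) (R u s r y t1 t2 : ℤ) : List Rc :=
  ((hookD R u y).map (Rc.rotd^[i])) ++ ringD R u ++ innD R u s r t1 t2

/-! ### Inner part -/

/-- The strand which enters `[-2L,r] × [-2L,2L]` at height `t2` and the strand which leaves it at the
height `t1` (both at the right side) reach `BB (2 t)` inside, and there are no four arms between
`BB (2 t)` and `BB (r / 2)`. (All labels outside of `BB (2 t)`.) -/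
structure Dgood (t s r L t1 t2 : ℤ) (w : Finset (ℤ × ℤ)) : Prop where
  h1 : |t1| ≤ L
  h2 : |t2| ≤ L
  sep : 16 * s ≤ |t1 - t2|
  fwd : ∃ n : ℕ, lab ((nx w)^[n] (2 * r + 1, 2 * t2 + 1)) ∈ BB (2 * t) ∧
    ∀ i < n, lab ((nx w)^[i] (2 * r + 1, 2 * t2 + 1)) ∈ BE r (2 * L) \ BB (2 * t)
  bwd : ∃ n : ℕ, plab ((pv w)^[n] (2 * r + 1, 2 * t1)) ∈ BB (2 * t) ∧
    ∀ i < n, plab ((pv w)^[i] (2 * r + 1, 2 * t1)) ∈ BE r (2 * L) \ BB (2 * t)
  four : ¬ Four (0, 0) (2 * t + 1) (r / 2 - 1) w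
  fourd : ¬ Four (0, 0) (2 * t + 1) (r / 2 - 1) (du (BB (r / 2)) w)

open Classical in
/-- the labels revealed by the inner part -/
noncomputable def DU (t r L t1 t2 : ℤ) (w : Finset (ℤ × ℤ)) : Finset (ℤ × ℤ) :=
  BB (r / 2) ∪ (BE r (2 * L)).filter (fun e =>
    (∃ n : ℕ, lab ((nx w)^[n] (2 * r + 1, 2 * t2 + 1)) = e ∧
      ∀ i ≤ n, lab ((nx w)^[i] (2 * r + 1, 2 * t2 + 1)) ∈ BE r (2 * L) \ BB (2 * t)) ∨
    (∃ n : ℕ, plab ((pv w)^[n] (2 * r + 1, 2 * t1)) = e ∧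
      ∀ i ≤ n, plab ((pv w)^[i] (2 * r + 1, 2 * t1)) ∈ BE r (2 * L) \ BB (2 * t)))

/-- The parameters: `t` next box, `s = M1 t` unit of the inner hooks, `r = 4^k 16 s`, `L = 4^k r`,
`R = 16 L` outer box, `u` unit of the outer hooks, `Mh u ≤ R ≤ 2 Mh u`. -/
structure Par (M1 k : ℕ) (Mh : ℕ) (t s r L R u : ℤ) : Prop where
  t1 : 1 ≤ t
  hs : s = M1 * t
  hr : r = 4 ^ k * (16 * s)
  hL : L = 4 ^ k * r
  hR : R = 16 * L
  u1 : 1 ≤ u
  hu1 : Mh * u ≤ R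
  hu2 : R ≤ 2 * Mh * u

end Pool.Agent.H53.ZF
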