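import Mathlib
import Pool.Agent.H53.ZF.Geo

set_option autoImplicit false
open Finset

/-! # (c2): the pieces (statements) -/

namespace Pool.Agent.H53.ZF

open Pool.Agent.H75.Perc Pool.Agent.H75.TwoArm Pool.Agent.Q1 Pool.Agent.H47.NC Pool.Agent.ZF
open Pool.Agent.H99.NC Pool.Agent.Q1.M6c Pool.Agent.H65.Four2

/-- **T1** outer hooks of both colours at the forward tip `a` (tip on the right side). `U` = labels which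
are regarded as open (resp. closed); near the right side they are explored labels. -/
def T1 : Prop := ∀ (w U E : Finset (ℤ × ℤ)) (c0 a b : ℤ × ℤ) (R u y : ℤ), 1 ≤ u → 100 * u ≤ R →
  (R < |(vx c0).1| ∨ R < |(vx c0).2|) → TipF w (BB R) c0 a → TipB w (BB R) c0 b → vx a = (R, y) →
  |y| ≤ R - 30 * u → (20 * u < |(vx a).1 - (vx b).1| ∨ 20 * u < |(vx a).2 - (vx b).2|) →
  (∀ e, MetL w (BB R) c0 e → ¬ (|e.1| = 2 * R + 1 ∧ |e.2| = 2 * R) ∧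
    ¬ (|e.1| = 2 * R ∧ |e.2| = 2 * R + 1)) →
  (∀ e ∈ U, 2 * (R - 28 * u) ≤ e.1 → MetL w (BB R) c0 e) →
  (∀ p q : ℤ × ℤ, p.1 = R - 20 * u → q.1 = R + 2 * u →
    inB (R - 20 * u) (R + 2 * u) (y - 2 * u) (y - u) p →
    Co ((w ∪ U) ∩ Bx (R - 20 * u) (R + 2 * u) (y - 2 * u) (y - u)) p q →
    VC (R + u) (R + 2 * u) (y - 2 * u) (y + 2 * u) (w ∪ U) →
    HC (R - 1) (R + 2 * u) (y + u) (y + 2 * u) (w ∪ U) → Co w (vx a) p) ∧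
  (∀ p q : ℤ × ℤ, p.1 = R - 28 * u → q.1 = R + 8 * u →
    inB (R - 28 * u) (R + 8 * u) (y + 4 * u) (y + 8 * u) p →
    Co (du E (w \ U) ∩ Bx (R - 28 * u) (R + 8 * u) (y + 4 * u) (y + 8 * u)) p q →
    VC (R + 4 * u) (R + 8 * u) (y - 8 * u) (y + 8 * u) (du E (w \ U)) →
    HC (R - 1) (R + 8 * u) (y - 8 * u) (y - 4 * u) (du E (w \ U)) → DCo w (fi a) p)

/-- rotation of a vertex by a right angle -/
def rotv (v : ℤ × ℤ) : ℤ × ℤ := (-v.2, v.1)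

/-- the forward tip is at the side `i`, height `y` in the rotated picture -/
def Side' (i : ℕ) (R y : ℤ) (w : Finset (ℤ × ℤ)) (c0 : ℤ × ℤ) : Prop :=
  ∃ a, TipF w (BB R) c0 a ∧ vx a = rotv^[i] (R, y)

/-- **T2** deterministic part: the crossings join the outer to the inner strand. -/
def T2 : Prop := ∀ (M1 k Mh : ℕ) (t s r L R u : ℤ), 1 ≤ M1 → 1000 ≤ Mh → Par M1 k Mh t s r L R u →
  ∀ (w E : Finset (ℤ × ℤ)) (c0 c : ℤ × ℤ) (i : ℕ) (y t1 t2 : ℤ), i < 4 → BB (2 * R) ⊆ E →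
  (R < |(vx c0).1| ∨ R < |(vx c0).2|) → Nice R u w c0 → Side' i R y w c0 → C0 c →
  Dgood t s r L t1 t2 w → East r (2 * L) w c t1 t2 →
  Holds (allO i R u s r L y t1) (allD i R u s r y t1 t2) E w
    (ExL E w (BB R) c0 ∪ DU t r L t1 t2 w) →
  Co w (vx c0) (vx c) ∧ DCo w (fi c0) (fi c)

/-- **T4** probability of the crossings, whatever has been revealed. -/
def T4 : Prop := ∀ M1 k Mh : ℕ, 1 ≤ M1 → 1000 ≤ Mh → ∃ p : ℝ, 0 < p ∧ ∀ t s r L R u : ℤ,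
  Par M1 k Mh t s r L R u → ∀ (E U ω : Finset (ℤ × ℤ)) (i : ℕ) (y t1 t2 : ℤ), i < 4 →
  BB (2 * R) ⊆ E → |y| ≤ R - 39 * u → (i = 0 → 39 * u ≤ |y|) → |t1| ≤ L → |t2| ≤ L →
  16 * s ≤ |t1 - t2| →
  p ≤ Pr E (fun ω' => Holds (allO i R u s r L y t1) (allD i R u s r y t1 t2) E (mix U ω ω') U)

/-- **T6** uniqueness of the far strand. -/
def T6 : Prop := ∀ (M1 k Mh : ℕ) (t s r L R u : ℤ), 1 ≤ M1 → Par M1 k Mh t s r L R u →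
  ∀ (w : Finset (ℤ × ℤ)) (c : ℤ × ℤ) (t1 t2 : ℤ), C0 c → Dgood t s r L t1 t2 w →
  Leave (BB (r / 2)) w c → East r (2 * L) w c t1 t2

/-- **T7** lower bound for the inner part. -/
def T7 : Prop := ∃ (M1 k : ℕ) (c1 : ℝ), 1 ≤ M1 ∧ 0 < c1 ∧ ∀ (Mh : ℕ) (t s r L R u : ℤ),
  Par M1 k Mh t s r L R u → c1 * (t : ℝ) ^ (-(1 / 4 : ℝ)) ≤
  ∑ c ∈ ({(0, 0), (1, 0), (0, 1), (1, 1)} : Finset (ℤ × ℤ)),
    Pr (BE r (2 * L)) (fun w => ∃ t1 t2, Dgood t s r L t1 t2 w ∧ East r (2 * L) w c t1 t2)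

/-- the labels which are known at the level `R` -/
noncomputable def AR (E W : Finset (ℤ × ℤ)) (c0 : ℤ × ℤ) (R : ℤ) (ω : Finset (ℤ × ℤ)) :
    Finset (ℤ × ℤ) := (E \ BB (2 * R)) ∪ ExL E (ω ∪ W) (BB R) c0

/-- **T8** stopping sets. -/
def T8 : Prop := ∀ (E W : Finset (ℤ × ℤ)) (c0 : ℤ × ℤ) (R : ℤ) (ω ω' : Finset (ℤ × ℤ)), ω ⊆ E →
  ω' ⊆ E → Disjoint E W → ω ∩ AR E W c0 R ω = ω' ∩ AR E W c0 R ω →
  AR E W c0 R ω' = AR E W c0 R ω ∧ (∀ a, TipF (ω' ∪ W) (BB R) c0 a ↔ TipF (ω ∪ W) (BB R) c0 a) ∧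
  (∀ b, TipB (ω' ∪ W) (BB R) c0 b ↔ TipB (ω ∪ W) (BB R) c0 b) ∧
  (∀ e, MetL (ω' ∪ W) (BB R) c0 e ↔ MetL (ω ∪ W) (BB R) c0 e) ∧
  ∀ R', R ≥ 2 * R' → AR E W c0 R ω ⊆ AR E W c0 R' ω

/-- **T9** bad states are rare: (near) the next state is rarely near a special point, (close) if the tips
are close then the strand rarely reaches the next box. `R = M t`. -/
def T9 : Prop := ∀ (κ : ℝ), 1 < κ → ∃ Mh : ℕ, 1000 ≤ Mh ∧ ∀ (t u : ℤ), 1 ≤ u → Mh * u ≤ t →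
  ∀ (E W : Finset (ℤ × ℤ)) (c0 : ℤ × ℤ), Disjoint E W → (∀ e ∈ E, (e.1 + e.2) % 2 = 1) →
  ∀ (R : ℤ), 4 * t ≤ R → BB (2 * R) ⊆ E → (2 * R < |(vx c0).1| ∨ 2 * R < |(vx c0).2|) →
  ∀ ω ⊆ E,
  Pr E (fun ω' => Alive t (mix (AR E W c0 R ω) ω ω' ∪ W) c0 ∧
    Near t u (mix (AR E W c0 R ω) ω ω' ∪ W) c0) ≤ κ⁻¹ ∧
  ∀ u' : ℤ, 1 ≤ u' → Mh * u' ≤ R → Close R u' (ω ∪ W) c0 →
    Pr E (fun ω' => Alive t (mix (AR E W c0 R ω) ω ω' ∪ W) c0) ≤ κ⁻¹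

/-- **T5** turning: the index at a corner of the inner strand is a function of the outer state plus a
function of the inner state (`k2` does not depend on the environment). -/
def T5 : Prop := ∀ (M1 k Mh : ℕ) (t s r L R u : ℤ), 1 ≤ M1 → 1000 ≤ Mh → Par M1 k Mh t s r L R u →
  ∃ k2 : ℤ × ℤ → ℤ → ℤ → Finset (ℤ × ℤ) → ℤ, ∀ (X : Env) (W : Finset (ℤ × ℤ)), GE X W →
  BB (2 * R) ⊆ X.E → (R < |(vx X.c0).1| ∨ R < |(vx X.c0).2|) →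
  ∃ k1 : ℕ → ℤ → Finset (ℤ × ℤ) → ℤ, ∀ (ω : Finset (ℤ × ℤ)) (c : ℤ × ℤ) (i : ℕ) (y t1 t2 : ℤ),
  ω ⊆ X.E → i < 4 → Nice R u (ω ∪ W) X.c0 → Side' i R y (ω ∪ W) X.c0 → C0 c →
  Dgood t s r L t1 t2 ω → East r (2 * L) ω c t1 t2 →
  Holds (allO i R u s r L y t1) (allD i R u s r y t1 t2) X.E ω
    (ExL X.E (ω ∪ W) (BB R) X.c0 ∪ DU t r L t1 t2 ω) →
  ∀ n < X.len ω, X.z ω n = c →
  X.K ω n = k1 i y (ω ∩ AR X.E W X.c0 R ω) + k2 c t1 t2 (ω ∩ DU t r L t1 t2 ω)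

/-- value at `y` of the passage of the strand at `c` -/
noncomputable def Fc (X : Env) (y : ℂ) (c : ℤ × ℤ) (ω : Finset (ℤ × ℤ)) : ℂ := at' X y ω c

/-- conditional expectation, given the labels of `A` (in the configuration `ω`) -/
noncomputable def CE (E A ω : Finset (ℤ × ℤ)) (G : Finset (ℤ × ℤ) → ℂ) : ℂ :=
  (1 / 2 : ℂ) ^ E.card * ∑ ω' ∈ E.powerset, G (mix A ω ω')

/-- **OS** the one-scale theorem, input of the soft part. `R = M t`. For a nice state at the level `R`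
there is a weight `ρ` (a function of the labels outside of `BB (2 t)`) such that the weighted conditional
expectations of `Fc` factorise with a universal factor `Uy c`. -/
def OS : Prop := ∃ (M : ℕ) (C1 : ℝ), 8 ≤ M ∧ 0 < C1 ∧ ∀ Mh : ℕ, 1000 ≤ Mh → ∃ θ : ℝ, 0 < θ ∧
  ∀ (t R u : ℤ), 1 ≤ t → R = M * t → 1 ≤ u → Mh * u ≤ R → R ≤ 2 * Mh * u →
  ∃ Uy : ℂ → ℤ × ℤ → ℂ, ∃ Uh : ℝ, θ * (R : ℝ) ^ (-(1 / 4 : ℝ)) ≤ Uh ∧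
  (∀ y : ℂ, ‖y‖ = 1 → ∑ c ∈ ({(0, 0), (1, 0), (0, 1), (1, 1)} : Finset (ℤ × ℤ)), ‖Uy y c‖ ≤ Uh) ∧
  ∀ (X : Env) (W : Finset (ℤ × ℤ)), GE X W → BB (2 * R) ⊆ X.E →
  (2 * R < |(vx X.c0).1| ∨ 2 * R < |(vx X.c0).2|) → ∀ ω ⊆ X.E,
  -- nice states
  (Nice R u (ω ∪ W) X.c0 → ∃ ρ : Finset (ℤ × ℤ) → ℝ, (∀ w, 0 ≤ ρ w ∧ ρ w ≤ 1) ∧
    (∀ w w' : Finset (ℤ × ℤ), w \ BB (2 * t) = w' \ BB (2 * t) → ρ w = ρ w') ∧
    (∀ y : ℂ, ‖y‖ = 1 → ∃ a : ℂ, ‖a‖ = 1 ∧ ∀ c, C0 c →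
      CE X.E (AR X.E W X.c0 R ω) ω (fun w => ρ w * Fc X y c w) = a * Uy y c) ∧
    ∑ c ∈ ({(0, 0), (1, 0), (0, 1), (1, 1)} : Finset (ℤ × ℤ)),
      CE X.E (AR X.E W X.c0 R ω) ω (fun w => ρ w * Fc X 1 c w) = Uh) ∧
  -- upper bound
  (∀ c, C0 c → ‖CE X.E (AR X.E W X.c0 R ω) ω (fun w => Fc X 1 c w)‖ ≤ C1 * (R : ℝ) ^ (-(1 / 4 : ℝ)))

end Pool.Agent.H53.ZF
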