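import Mathlib
import Pool.Agent.H53.ZF.Pcs

set_option autoImplicit false
open Finset

/-! # The open rectangles and the dual rectangles have no common label -/

namespace Pool.Agent.H53.ZF

open Pool.Agent.H75.Perc Pool.Agent.H75.TwoArm Pool.Agent.Q1 Pool.Agent.H47.NC Pool.Agent.ZF
open Pool.Agent.H99.NC Pool.Agent.Q1.M6c Pool.Agent.H65.Four2

/-- linear consequences of the choice of the parameters -/
lemma Par.lin {M1 k Mh : ℕ} {t s r L R u : ℤ} (hM : 1 ≤ M1) (hh : 1000 ≤ Mh)
    (hp : Par M1 k Mh t s r L R u) :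
    1 ≤ t ∧ t ≤ s ∧ 1 ≤ s ∧ 16 * s ≤ r ∧ r ≤ L ∧ R = 16 * L ∧ 1 ≤ u ∧ 1000 * u ≤ R ∧ r % 2 = 0 := by
  obtain ⟨h1, h2, h3, h4, h5, h6, h7, h8⟩ := hp
  have hM' : (1 : ℤ) ≤ M1 := by exact_mod_cast hM
  have hh' : (1000 : ℤ) ≤ Mh := by exact_mod_cast hh
  have hk : (1 : ℤ) ≤ 4 ^ k := one_le_pow₀ (by norm_num)
  have e1 : t ≤ s := by rw [h2]; nlinarith
  have e2 : 16 * s ≤ r := by rw [h3]; nlinarith
  have e3 : r ≤ L := by rw [h4]; nlinarith
  have e4 : 1000 * u ≤ R := by nlinarith
  have e5 : r % 2 = 0 := by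
    rw [h3, show (4 : ℤ) ^ k * (16 * s) = 2 * (4 ^ k * (8 * s)) by ring]
    exact Int.mul_emod_right 2 _
  exact ⟨h1, e1, h1.trans e1, e2, e3, h5, h6, e4, e5⟩

lemma dis_lin {s r L R u : ℤ} (g1 : 1 ≤ s) (g2 : 16 * s ≤ r) (g3 : r ≤ L) (g4 : R = 16 * L)
    (g5 : 1 ≤ u) (g6 : 1000 * u ≤ R) {i : ℕ} {y t1 t2 : ℤ} (hi : i < 4) (hy : |y| ≤ R - 39 * u)
    (hy0 : i = 0 → 39 * u ≤ |y|) (h1 : |t1| ≤ L) (h2 : |t2| ≤ L) (h12 : 16 * s ≤ |t1 - t2|)
    {e : ℤ × ℤ} (hO : ∃ ρ ∈ allO i R u s r L y t1, e ∈ ρ.lb)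
    (hD : ∃ ρ ∈ allD i R u s r y t1 t2, sh1 e ∈ ρ.lb) : False := by
  obtain ⟨a, b⟩ := e
  rw [abs_le] at hy h1 h2
  rw [le_abs] at h12
  simp only [le_abs] at hy0
  unfold allO hookO ringO gateO innO Rc.lb at hO
  unfold allD hookD ringD innD Rc.lb at hD
  have hsh : sh1 (a, b) = (a + 1, b + 1) := rfl
  rw [hsh] at hD
  interval_cases i
  · have hy0 := hy0 rfl
    simp only [List.map_append, List.map_cons, List.map_nil, List.mem_append, List.mem_cons,
      List.not_mem_nil, or_false, Function.iterate_zero, id_eq, or_and_right, exists_or,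
      exists_eq_left, mem_Bx, or_assoc] at hO hD
    by_cases h : t1 < t2
    · simp only [if_pos h] at hD
      rcases hO with h | h | h | h | h | h | h | h | h | h | h | h | h <;> omega
    · simp only [if_neg h] at hD
      rcases hO with h | h | h | h | h | h | h | h | h | h | h | h | h <;> omega
  · simp only [List.map_append, List.map_cons, List.map_nil, List.mem_append, List.mem_cons,
      List.not_mem_nil, or_false, Function.iterate_succ, Function.iterate_zero, Function.comp_apply,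
      id_eq, or_and_right, exists_or, exists_eq_left, Rc.rot, Rc.rotd, mem_Bx, or_assoc] at hO hD
    by_cases h : t1 < t2
    · simp only [if_pos h] at hD
      rcases hO with h | h | h | h | h | h | h | h | h | h | h | h | h <;> omega
    · simp only [if_neg h] at hD
      rcases hO with h | h | h | h | h | h | h | h | h | h | h | h | h <;> omega
  · simp only [List.map_append, List.map_cons, List.map_nil, List.mem_append, List.mem_cons,
      List.not_mem_nil, or_false, Function.iterate_succ, Function.iterate_zero, Function.comp_apply,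
      id_eq, or_and_right, exists_or, exists_eq_left, Rc.rot, Rc.rotd, mem_Bx, or_assoc] at hO hD
    by_cases h : t1 < t2
    · simp only [if_pos h] at hD
      rcases hO with h | h | h | h | h | h | h | h | h | h | h | h | h <;> omega
    · simp only [if_neg h] at hD
      rcases hO with h | h | h | h | h | h | h | h | h | h | h | h | h <;> omega
  · simp only [List.map_append, List.map_cons, List.map_nil, List.mem_append, List.mem_cons,
      List.not_mem_nil, or_false, Function.iterate_succ, Function.iterate_zero, Function.comp_apply,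
      id_eq, or_and_right, exists_or, exists_eq_left, Rc.rot, Rc.rotd, mem_Bx, or_assoc] at hO hD
    by_cases h : t1 < t2
    · simp only [if_pos h] at hD
      rcases hO with h | h | h | h | h | h | h | h | h | h | h | h | h <;> omega
    · simp only [if_neg h] at hD
      rcases hO with h | h | h | h | h | h | h | h | h | h | h | h | h <;> omega

/-- **No common labels.** -/
theorem dis {M1 k Mh : ℕ} {t s r L R u : ℤ} (hM : 1 ≤ M1) (hh : 1000 ≤ Mh)
    (hp : Par M1 k Mh t s r L R u) {i : ℕ} {y t1 t2 : ℤ} (hi : i < 4) (hy : |y| ≤ R - 39 * u)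
    (hy0 : i = 0 → 39 * u ≤ |y|) (h1 : |t1| ≤ L) (h2 : |t2| ≤ L) (h12 : 16 * s ≤ |t1 - t2|)
    {e : ℤ × ℤ} (hO : ∃ ρ ∈ allO i R u s r L y t1, e ∈ ρ.lb)
    (hD : ∃ ρ ∈ allD i R u s r y t1 t2, sh1 e ∈ ρ.lb) : False := by
  obtain ⟨-, -, g1, g2, g3, g4, g5, g6, -⟩ := Par.lin hM hh hp
  exact dis_lin g1 g2 g3 g4 g5 g6 hi hy hy0 h1 h2 h12 hO hD

end Pool.Agent.H53.ZF
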