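import Mathlib
import Pool.Agent.H53.ZF.Pcs

set_option autoImplicit false
open Finset

/-! # Strands depend only on the labels they meet -/

namespace Pool.Agent.H53.ZF

open Pool.Agent.H75.Perc Pool.Agent.H75.TwoArm Pool.Agent.Q1 Pool.Agent.H47.NC Pool.Agent.ZF
open Pool.Agent.H99.NC Pool.Agent.Q1.M6c Pool.Agent.H65.Four2

section

variable {w w' : Finset (ℤ × ℤ)} {c : ℤ × ℤ}

lemma nx_iter_congr {n : ℕ} (h : ∀ i < n, (lab ((nx w)^[i] c) ∈ w ↔ lab ((nx w)^[i] c) ∈ w')) :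
    ∀ i ≤ n, (nx w')^[i] c = (nx w)^[i] c := by
  intro i
  induction i with
  | zero => intro _; rfl
  | succ i ih =>
    intro hi
    rw [Function.iterate_succ_apply', Function.iterate_succ_apply', ih (by omega)]
    exact (nx_eq_of_iff (h i (by omega))).symm

lemma pv_iter_congr {n : ℕ} (h : ∀ i < n, (plab ((pv w)^[i] c) ∈ w ↔ plab ((pv w)^[i] c) ∈ w')) :
    ∀ i ≤ n, (pv w')^[i] c = (pv w)^[i] c := by
  intro i
  induction i with
  | zero => intro _; rfl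
  | succ i ih =>
    intro hi
    rw [Function.iterate_succ_apply', Function.iterate_succ_apply', ih (by omega)]
    exact (pv_eq_of_iff (h i (by omega))).symm

/-- labels met by the forward strand while they satisfy `P` -/
def FM (P : ℤ × ℤ → Prop) (w : Finset (ℤ × ℤ)) (c e : ℤ × ℤ) : Prop :=
  ∃ n : ℕ, lab ((nx w)^[n] c) = e ∧ ∀ i ≤ n, P (lab ((nx w)^[i] c))

/-- labels met by the backward strand while they satisfy `P` -/
def BM (P : ℤ × ℤ → Prop) (w : Finset (ℤ × ℤ)) (c e : ℤ × ℤ) : Prop :=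
  ∃ n : ℕ, plab ((pv w)^[n] c) = e ∧ ∀ i ≤ n, P (plab ((pv w)^[i] c))

variable {P : ℤ × ℤ → Prop}

lemma fm_iter (h : ∀ e, FM P w c e → (e ∈ w ↔ e ∈ w')) {n : ℕ}
    (hn : ∀ i < n, P (lab ((nx w)^[i] c))) : ∀ i ≤ n, (nx w')^[i] c = (nx w)^[i] c :=
  nx_iter_congr fun i hi => h _ ⟨i, rfl, fun j hj => hn j (by omega)⟩

lemma bm_iter (h : ∀ e, BM P w c e → (e ∈ w ↔ e ∈ w')) {n : ℕ}
    (hn : ∀ i < n, P (plab ((pv w)^[i] c))) : ∀ i ≤ n, (pv w')^[i] c = (pv w)^[i] c :=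
  pv_iter_congr fun i hi => h _ ⟨i, rfl, fun j hj => hn j (by omega)⟩

lemma fm_sub (h : ∀ e, FM P w c e → (e ∈ w ↔ e ∈ w')) {e : ℤ × ℤ} (he : FM P w c e) :
    FM P w' c e := by
  obtain ⟨n, h1, h2⟩ := he
  have h3 := fm_iter h (n := n) (fun i hi => h2 i hi.le)
  exact ⟨n, by rw [h3 n le_rfl]; exact h1, fun i hi => by rw [h3 i hi]; exact h2 i hi⟩

lemma bm_sub (h : ∀ e, BM P w c e → (e ∈ w ↔ e ∈ w')) {e : ℤ × ℤ} (he : BM P w c e) :
    BM P w' c e := by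
  obtain ⟨n, h1, h2⟩ := he
  have h3 := bm_iter h (n := n) (fun i hi => h2 i hi.le)
  exact ⟨n, by rw [h3 n le_rfl]; exact h1, fun i hi => by rw [h3 i hi]; exact h2 i hi⟩

/-- the met labels of `w'` are met in `w` -/
lemma fm_sup (h : ∀ e, FM P w c e → (e ∈ w ↔ e ∈ w')) {e : ℤ × ℤ} (he : FM P w' c e) :
    FM P w c e := by
  obtain ⟨n, h1, h2⟩ := he
  have h3 : ∀ i ≤ n, (nx w')^[i] c = (nx w)^[i] c := by
    intro i
    induction i with
    | zero => intro _; rfl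
    | succ i ih =>
      intro hi
      have h4 : ∀ j < i + 1, P (lab ((nx w)^[j] c)) := by
        intro j
        induction j using Nat.strong_induction_on with
        | _ j ihj =>
          intro hj
          have h5 := fm_iter h (n := j) (fun k hk => ihj k hk (by omega)) j le_rfl
          rw [← h5]; exact h2 j (by omega)
      exact fm_iter h h4 (i + 1) le_rfl
  exact ⟨n, by rw [← h3 n le_rfl]; exact h1, fun i hi => by rw [← h3 i hi]; exact h2 i hi⟩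

lemma bm_sup (h : ∀ e, BM P w c e → (e ∈ w ↔ e ∈ w')) {e : ℤ × ℤ} (he : BM P w' c e) :
    BM P w c e := by
  obtain ⟨n, h1, h2⟩ := he
  have h3 : ∀ i ≤ n, (pv w')^[i] c = (pv w)^[i] c := by
    intro i
    induction i with
    | zero => intro _; rfl
    | succ i ih =>
      intro hi
      have h4 : ∀ j < i + 1, P (plab ((pv w)^[j] c)) := by
        intro j
        induction j using Nat.strong_induction_on with
        | _ j ihj =>
          intro hj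
          have h5 := bm_iter h (n := j) (fun k hk => ihj k hk (by omega)) j le_rfl
          rw [← h5]; exact h2 j (by omega)
      exact bm_iter h h4 (i + 1) le_rfl
  exact ⟨n, by rw [← h3 n le_rfl]; exact h1, fun i hi => by rw [← h3 i hi]; exact h2 i hi⟩

lemma fm_iff (h : ∀ e, FM P w c e → (e ∈ w ↔ e ∈ w')) (e : ℤ × ℤ) : FM P w' c e ↔ FM P w c e :=
  ⟨fm_sup h, fm_sub h⟩

lemma bm_iff (h : ∀ e, BM P w c e → (e ∈ w ↔ e ∈ w')) (e : ℤ × ℤ) : BM P w' c e ↔ BM P w c e :=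
  ⟨bm_sup h, bm_sub h⟩

end

/-! ### The revealed labels of the inner part -/

section

variable {t s r L t1 t2 : ℤ} {w w' : Finset (ℤ × ℤ)}

lemma mem_DU {e : ℤ × ℤ} : e ∈ DU t r L t1 t2 w ↔ e ∈ BB (r / 2) ∨ (e ∈ BE r (2 * L) ∧
    (FM (fun e => e ∈ BE r (2 * L) \ BB (2 * t)) w (2 * r + 1, 2 * t2 + 1) e ∨
      BM (fun e => e ∈ BE r (2 * L) \ BB (2 * t)) w (2 * r + 1, 2 * t1) e)) := by
  unfold DU FM BM
  simp only [mem_union, mem_filter]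

lemma DU_congr_aux (h : ∀ e ∈ DU t r L t1 t2 w, (e ∈ w ↔ e ∈ w')) :
    (∀ e, FM (fun e => e ∈ BE r (2 * L) \ BB (2 * t)) w (2 * r + 1, 2 * t2 + 1) e →
      (e ∈ w ↔ e ∈ w')) ∧
    (∀ e, BM (fun e => e ∈ BE r (2 * L) \ BB (2 * t)) w (2 * r + 1, 2 * t1) e →
      (e ∈ w ↔ e ∈ w')) := by
  constructor
  · intro e he
    refine h e (mem_DU.2 (Or.inr ⟨?_, Or.inl he⟩))
    obtain ⟨n, h1, h2⟩ := he
    rw [← h1]; exact (mem_sdiff.1 (h2 n le_rfl)).1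
  · intro e he
    refine h e (mem_DU.2 (Or.inr ⟨?_, Or.inr he⟩))
    obtain ⟨n, h1, h2⟩ := he
    rw [← h1]; exact (mem_sdiff.1 (h2 n le_rfl)).1

/-- `DU` is a stopping set -/
lemma DU_congr (h : ∀ e ∈ DU t r L t1 t2 w, (e ∈ w ↔ e ∈ w')) :
    DU t r L t1 t2 w' = DU t r L t1 t2 w := by
  obtain ⟨hF, hB⟩ := DU_congr_aux h
  ext e
  rw [mem_DU, mem_DU, fm_iff hF, bm_iff hB]

lemma four_congr {x : ℤ × ℤ} {a b : ℤ} {v v' : Finset (ℤ × ℤ)}
    (h : v ∩ An x a b = v' ∩ An x a b) : Four x a b v ↔ Four x a b v' := by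
  unfold Four; rw [h]

lemma BB_eq (R : ℤ) : BB R = Bq (0, 0) R := by
  unfold H75.TwoArm.BB Bq; simp

lemma Dgood_congr (h : ∀ e ∈ DU t r L t1 t2 w, (e ∈ w ↔ e ∈ w')) (hD : Dgood t s r L t1 t2 w) :
    Dgood t s r L t1 t2 w' := by
  obtain ⟨hF, hB⟩ := DU_congr_aux h
  have hbox : ∀ e ∈ BB (r / 2), (e ∈ w ↔ e ∈ w') := fun e he => h e (mem_DU.2 (Or.inl he))
  refine ⟨hD.h1, hD.h2, hD.sep, ?_, ?_, ?_, ?_⟩
  · obtain ⟨n, h1, h2⟩ := hD.fwd
    have h3 := fm_iter hF (n := n) h2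
    exact ⟨n, by rw [h3 n le_rfl]; exact h1, fun i hi => by rw [h3 i hi.le]; exact h2 i hi⟩
  · obtain ⟨n, h1, h2⟩ := hD.bwd
    have h3 := bm_iter hB (n := n) h2
    exact ⟨n, by rw [h3 n le_rfl]; exact h1, fun i hi => by rw [h3 i hi.le]; exact h2 i hi⟩
  · rw [← four_congr (v := w)]
    · exact hD.four
    · ext e
      rw [mem_inter, mem_inter]
      constructor
      · rintro ⟨h1, h2⟩
        refine ⟨(hbox e ?_).1 h1, h2⟩
        rw [BB_eq]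
        rw [mem_An, mem_Bq] at h2
        rw [mem_Bq]
        omega
      · rintro ⟨h1, h2⟩
        refine ⟨(hbox e ?_).2 h1, h2⟩
        rw [BB_eq]
        rw [mem_An, mem_Bq] at h2
        rw [mem_Bq]
        omega
  · have e1 : du (BB (r / 2)) w' = du (BB (r / 2)) w := by
      unfold du
      congr 1
      ext e
      rw [mem_sdiff, mem_sdiff]
      constructor
      · rintro ⟨h1, h2⟩; exact ⟨h1, fun h3 => h2 ((hbox e h1).1 h3)⟩
      · rintro ⟨h1, h2⟩; exact ⟨h1, fun h3 => h2 ((hbox e h1).2 h3)⟩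
    rw [e1]; exact hD.fourd

/-- leaving a box depends only on the labels of the box -/
lemma Leave_congr {B : Finset (ℤ × ℤ)} {c : ℤ × ℤ} (h : ∀ e ∈ B, (e ∈ w ↔ e ∈ w'))
    (hL : Leave B w c) : Leave B w' c := by
  classical
  have hex : ∃ j : ℕ, lab ((nx w)^[j] c) ∉ B := hL
  have h1 := Nat.find_spec hex
  have h2 : ∀ i < Nat.find hex, lab ((nx w)^[i] c) ∈ B := fun i hi => by
    by_contra h3
    exact Nat.find_min hex hi h3
  refine ⟨Nat.find hex, ?_⟩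
  rw [nx_iter_congr (w' := w') (n := Nat.find hex) (fun i hi => h _ (h2 i hi)) _ le_rfl]
  exact h1

end

/-! ### The labels known at the level `R` -/

section

variable {E W : Finset (ℤ × ℤ)} {c0 : ℤ × ℤ} {R : ℤ} {ω ω' : Finset (ℤ × ℤ)}

lemma MetL_iff {w B : Finset (ℤ × ℤ)} {e : ℤ × ℤ} : MetL w B c0 e ↔
    FM (fun e => e ∉ B) w c0 e ∨ BM (fun e => e ∉ B) w c0 e := Iff.rfl

/-- agreement on `AR` gives agreement on all met labels -/
lemma agree_met (hω : ω ⊆ E) (hω' : ω' ⊆ E)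
    (h : ω ∩ AR E W c0 R ω = ω' ∩ AR E W c0 R ω) {e : ℤ × ℤ} (he : MetL (ω ∪ W) (BB R) c0 e) :
    e ∈ ω ∪ W ↔ e ∈ ω' ∪ W := by
  rw [mem_union, mem_union]
  by_cases heE : e ∈ E
  · have h1 : e ∈ AR E W c0 R ω := by
      unfold AR ExL
      simp only [mem_union, mem_filter]
      exact Or.inr ⟨heE, he⟩
    have h2 : e ∈ ω ↔ e ∈ ω' := by
      constructor
      · intro h3
        have : e ∈ ω ∩ AR E W c0 R ω := mem_inter.2 ⟨h3, h1⟩
        rw [h] at this; exact (mem_inter.1 this).1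
      · intro h3
        have : e ∈ ω' ∩ AR E W c0 R ω := mem_inter.2 ⟨h3, h1⟩
        rw [← h] at this; exact (mem_inter.1 this).1
    rw [h2]
  · have h1 : e ∉ ω := fun h => heE (hω h)
    have h2 : e ∉ ω' := fun h => heE (hω' h)
    simp [h1, h2]

lemma met_congr (hω : ω ⊆ E) (hω' : ω' ⊆ E)
    (h : ω ∩ AR E W c0 R ω = ω' ∩ AR E W c0 R ω) (e : ℤ × ℤ) :
    MetL (ω' ∪ W) (BB R) c0 e ↔ MetL (ω ∪ W) (BB R) c0 e := by
  rw [MetL_iff, MetL_iff,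
    fm_iff (fun e he => agree_met hω hω' h (MetL_iff.2 (Or.inl he))),
    bm_iff (fun e he => agree_met hω hω' h (MetL_iff.2 (Or.inr he)))]

lemma ExL_congr (hω : ω ⊆ E) (hω' : ω' ⊆ E)
    (h : ω ∩ AR E W c0 R ω = ω' ∩ AR E W c0 R ω) :
    ExL E (ω' ∪ W) (BB R) c0 = ExL E (ω ∪ W) (BB R) c0 := by
  unfold ExL
  ext e
  simp only [mem_filter, met_congr hω hω' h]

lemma AR_congr (hω : ω ⊆ E) (hω' : ω' ⊆ E)
    (h : ω ∩ AR E W c0 R ω = ω' ∩ AR E W c0 R ω) : AR E W c0 R ω' = AR E W c0 R ω := by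
  unfold AR; rw [ExL_congr hω hω' h]

lemma tipF_congr {B : Finset (ℤ × ℤ)} {w w' : Finset (ℤ × ℤ)} {a : ℤ × ℤ}
    (h : ∀ e, FM (fun e => e ∉ B) w c0 e → (e ∈ w ↔ e ∈ w')) (ha : TipF w B c0 a) :
    TipF w' B c0 a := by
  obtain ⟨n, h1, h2, h3⟩ := ha
  have h4 := fm_iter h (n := n) h3
  exact ⟨n, by rw [h4 n le_rfl]; exact h1, h2, fun i hi => by rw [h4 i hi.le]; exact h3 i hi⟩

lemma tipB_congr {B : Finset (ℤ × ℤ)} {w w' : Finset (ℤ × ℤ)} {a : ℤ × ℤ}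
    (h : ∀ e, BM (fun e => e ∉ B) w c0 e → (e ∈ w ↔ e ∈ w')) (ha : TipB w B c0 a) :
    TipB w' B c0 a := by
  obtain ⟨n, h1, h2, h3⟩ := ha
  have h4 := bm_iter h (n := n) h3
  exact ⟨n, by rw [h4 n le_rfl]; exact h1, h2, fun i hi => by rw [h4 i hi.le]; exact h3 i hi⟩

lemma agree_symm (hω : ω ⊆ E) (hω' : ω' ⊆ E)
    (h : ω ∩ AR E W c0 R ω = ω' ∩ AR E W c0 R ω) :
    ω' ∩ AR E W c0 R ω' = ω ∩ AR E W c0 R ω' := by
  rw [AR_congr hω hω' h, h]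

lemma tipF_iff (hω : ω ⊆ E) (hω' : ω' ⊆ E)
    (h : ω ∩ AR E W c0 R ω = ω' ∩ AR E W c0 R ω) (a : ℤ × ℤ) :
    TipF (ω' ∪ W) (BB R) c0 a ↔ TipF (ω ∪ W) (BB R) c0 a :=
  ⟨tipF_congr (fun _ he => agree_met hω' hω (agree_symm hω hω' h) (MetL_iff.2 (Or.inl he))),
    tipF_congr (fun _ he => agree_met hω hω' h (MetL_iff.2 (Or.inl he)))⟩

lemma tipB_iff (hω : ω ⊆ E) (hω' : ω' ⊆ E)
    (h : ω ∩ AR E W c0 R ω = ω' ∩ AR E W c0 R ω) (a : ℤ × ℤ) :
    TipB (ω' ∪ W) (BB R) c0 a ↔ TipB (ω ∪ W) (BB R) c0 a :=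
  ⟨tipB_congr (fun _ he => agree_met hω' hω (agree_symm hω hω' h) (MetL_iff.2 (Or.inr he))),
    tipB_congr (fun _ he => agree_met hω hω' h (MetL_iff.2 (Or.inr he)))⟩

lemma nice_iff {u : ℤ} (hω : ω ⊆ E) (hω' : ω' ⊆ E)
    (h : ω ∩ AR E W c0 R ω = ω' ∩ AR E W c0 R ω) :
    Nice R u (ω' ∪ W) c0 ↔ Nice R u (ω ∪ W) c0 := by
  unfold Nice Alive Near Close
  simp only [tipF_iff hω hω' h, tipB_iff hω hω' h, met_congr hω hω' h]

lemma side_iff {i : ℕ} {y : ℤ} (hω : ω ⊆ E) (hω' : ω' ⊆ E)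
    (h : ω ∩ AR E W c0 R ω = ω' ∩ AR E W c0 R ω) :
    Side' i R y (ω' ∪ W) c0 ↔ Side' i R y (ω ∪ W) c0 := by
  unfold Side'
  simp only [tipF_iff hω hω' h]

end

end Pool.Agent.H53.ZF
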