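import Mathlib
import Pool.Agent.H53.ZF.Cong

set_option autoImplicit false
open Finset

/-! # The strand enters the inner box only through the gate

`w` has no label in the annulus of the box `[-l, l]²`, except on the row `y = 0` at the right side. -/

namespace Pool.Agent.H53.ZF

open Pool.Agent.H75.Perc Pool.Agent.H75.TwoArm Pool.Agent.Q1 Pool.Agent.H47.NC Pool.Agent.ZF
open Pool.Agent.H99.NC Pool.Agent.Q1.M6c Pool.Agent.H65.Four2

/-- vertices of the box -/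
def InV (l : ℤ) (v : ℤ × ℤ) : Prop := (-l ≤ v.1 ∧ v.1 ≤ l) ∧ (-l ≤ v.2 ∧ v.2 ≤ l)

/-- no open label around the side of the box except on the row -/
def Moat (l : ℤ) (w : Finset (ℤ × ℤ)) : Prop := ∀ e ∈ w,
  (e.1 ≤ -(2 * l - 1) ∨ 2 * l - 1 ≤ e.1 ∨ e.2 ≤ -(2 * l - 1) ∨ 2 * l - 1 ≤ e.2) →
  (-(2 * l + 1) ≤ e.1 ∧ e.1 ≤ 2 * l + 1) → (-(2 * l + 1) ≤ e.2 ∧ e.2 ≤ 2 * l + 1) →
  e.2 = 0 ∧ (e.1 = 2 * l - 1 ∨ e.1 = 2 * l + 1)

/-- vertices of the box which are not at the side, except `(l, 0)` -/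
def GoodV (l : ℤ) (v : ℤ × ℤ) : Prop :=
  ((-l < v.1 ∧ v.1 < l) ∧ (-l < v.2 ∧ v.2 < l)) ∨ v = (l, 0)

section

variable {l : ℤ} {w : Finset (ℤ × ℤ)}

/-- one step -/
lemma step_cases (w : Finset (ℤ × ℤ)) (a b : ℤ) :
    (lab (a, b) ∉ w ∧ nx w (a, b) = nxC (a, b)) ∨ (lab (a, b) ∈ w ∧ nx w (a, b) = nxO (a, b)) := by
  unfold nx
  by_cases h : lab (a, b) ∈ w
  · right; rw [if_pos h]; exact ⟨h, rfl⟩
  · left; rw [if_neg h]; exact ⟨h, rfl⟩

/-- the entry -/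
lemma gate_in (hl : 2 ≤ l) (hP : Moat l w) {z : ℤ × ℤ} (h1 : ¬ InV l (vx z))
    (h2 : InV l (vx (nx w z))) : z = (2 * l + 2, 1) ∧ nx w z = (2 * l + 1, 1) := by
  obtain ⟨a, b⟩ := z
  rcases step_cases w a b with ⟨h3, h4⟩ | ⟨h3, h4⟩
  · exfalso
    apply h1
    rw [h4] at h2
    rwa [vx_nxC] at h2
  · rw [h4] at h2 ⊢
    have hP' := hP _ h3
    rcases ty_cases (a, b) with ⟨-, g1, g2, g3, -, g5⟩ | ⟨-, g1, g2, g3, -, g5⟩ |
        ⟨-, g1, g2, g3, -, g5⟩ | ⟨-, g1, g2, g3, -, g5⟩ <;>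
    simp only at g1 g2 g3 g5 <;> rw [g5] at h2 ⊢ <;> rw [g3] at hP' <;>
    simp only [InV, vx, Prod.mk.injEq] at h1 h2 hP' ⊢ <;> omega

/-- the exit -/
lemma gate_out (hl : 2 ≤ l) (hP : Moat l w) {z : ℤ × ℤ} (h1 : InV l (vx z))
    (h2 : ¬ InV l (vx (nx w z))) : z = (2 * l + 1, 0) ∧ nx w z = (2 * l + 2, 0) := by
  obtain ⟨a, b⟩ := z
  rcases step_cases w a b with ⟨h3, h4⟩ | ⟨h3, h4⟩
  · exfalso
    apply h2
    rw [h4]
    rwa [vx_nxC]
  · rw [h4] at h2 ⊢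
    have hP' := hP _ h3
    rcases ty_cases (a, b) with ⟨-, g1, g2, g3, -, g5⟩ | ⟨-, g1, g2, g3, -, g5⟩ |
        ⟨-, g1, g2, g3, -, g5⟩ | ⟨-, g1, g2, g3, -, g5⟩ <;>
    simp only at g1 g2 g3 g5 <;> rw [g5] at h2 ⊢ <;> rw [g3] at hP' <;>
    simp only [InV, vx, Prod.mk.injEq] at h1 h2 hP' ⊢ <;> omega

/-- inside, the strand stays away from the side -/
lemma good_step (hl : 2 ≤ l) (hP : Moat l w) {z : ℤ × ℤ} (h1 : GoodV l (vx z))
    (h2 : InV l (vx (nx w z))) : GoodV l (vx (nx w z)) := by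
  obtain ⟨a, b⟩ := z
  rcases step_cases w a b with ⟨h3, h4⟩ | ⟨h3, h4⟩
  · rw [h4, vx_nxC]; exact h1
  · rw [h4] at h2 ⊢
    have hP' := hP _ h3
    rcases ty_cases (a, b) with ⟨-, g1, g2, g3, -, g5⟩ | ⟨-, g1, g2, g3, -, g5⟩ |
        ⟨-, g1, g2, g3, -, g5⟩ | ⟨-, g1, g2, g3, -, g5⟩ <;>
    simp only at g1 g2 g3 g5 <;> rw [g5] at h2 ⊢ <;> rw [g3] at hP' <;>
    simp only [InV, GoodV, vx, Prod.mk.injEq] at h1 h2 hP' ⊢ <;> omega

lemma good_lab {z : ℤ × ℤ} (hl : 2 ≤ l) (h1 : GoodV l (vx z)) : lab z ∈ BB l ∨ z = (2 * l + 1, 0) := by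
  obtain ⟨a, b⟩ := z
  unfold H75.TwoArm.BB
  rw [mem_Bx]
  rcases ty_cases (a, b) with ⟨-, g1, g2, g3, -, g5⟩ | ⟨-, g1, g2, g3, -, g5⟩ |
      ⟨-, g1, g2, g3, -, g5⟩ | ⟨-, g1, g2, g3, -, g5⟩ <;>
  simp only at g1 g2 g3 g5 <;> rw [g3] <;>
  simp only [GoodV, vx, Prod.mk.injEq] at h1 ⊢ <;> omega

lemma out_lab {z : ℤ × ℤ} (h1 : ¬ InV l (vx z)) : lab z ∉ BB l := by
  obtain ⟨a, b⟩ := z
  unfold H75.TwoArm.BB
  rw [mem_Bx]
  rcases ty_cases (a, b) with ⟨-, g1, g2, g3, -, g5⟩ | ⟨-, g1, g2, g3, -, g5⟩ |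
      ⟨-, g1, g2, g3, -, g5⟩ | ⟨-, g1, g2, g3, -, g5⟩ <;>
  simp only at g1 g2 g3 g5 <;> rw [g3] <;>
  simp only [InV, vx] at h1 ⊢ <;> omega

/-- the next entry -/
lemma next_in (hl : 2 ≤ l) (hP : Moat l w) {z : ℕ → ℤ × ℤ} (hz : ∀ i, z (i + 1) = nx w (z i))
    {i n : ℕ} (hin : i ≤ n) (h1 : ¬ InV l (vx (z i))) (h2 : InV l (vx (z n))) :
    ∃ j, i < j ∧ j ≤ n ∧ z j = (2 * l + 1, 1) ∧ ∀ k, i ≤ k → k < j → ¬ InV l (vx (z k)) := by
  classical
  have hex : ∃ j, i ≤ j ∧ InV l (vx (z j)) := ⟨n, hin, h2⟩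
  set j := Nat.find hex with hj
  obtain ⟨h3, h4⟩ := Nat.find_spec hex
  rw [← hj] at h3 h4
  have h5 : j ≤ n := Nat.find_min' hex ⟨hin, h2⟩
  have h6 : i < j := by
    rcases Nat.lt_or_ge i j with h | h
    · exact h
    · exfalso
      have : i = j := le_antisymm h3 h
      rw [← this] at h4; exact h1 h4
  have h7 : ∀ k, i ≤ k → k < j → ¬ InV l (vx (z k)) := fun k hk hk' h8 =>
    Nat.find_min hex hk' ⟨hk, h8⟩
  refine ⟨j, h6, h5, ?_, h7⟩
  have h8 := h7 (j - 1) (by omega) (by omega)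
  have h9 : z j = nx w (z (j - 1)) := by
    rw [← hz, show j - 1 + 1 = j by omega]
  rw [h9] at h4 ⊢
  exact (gate_in hl hP h8 h4).2

/-- **The strand reaches the inner box exactly once, through the gate.** -/
theorem gate (hl : 2 ≤ l) (hP : Moat l w) {z : ℕ → ℤ × ℤ} (hz : ∀ i, z (i + 1) = nx w (z i))
    {n : ℕ} (h1 : ¬ InV l (vx (z 0))) (h2 : vx (z n) = (0, 0))
    (hinj : ∀ i j, i < j → j ≤ n → z i ≠ z j) :
    ∃ τ ≤ n, z τ = (2 * l + 1, 1) ∧ (∀ j < τ, lab (z j) ∉ BB l) ∧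
      ∀ j, τ ≤ j → j < n → lab (z j) ∈ BB l := by
  have hn : InV l (vx (z n)) := by rw [h2]; unfold InV; simp only; omega
  obtain ⟨τ, -, hτ, hm, hbef⟩ := next_in hl hP hz (Nat.zero_le n) h1 hn
  have hmv : GoodV l (vx (z τ)) := by
    rw [hm]; unfold GoodV vx; right; simp only [Prod.mk.injEq]; omega
  have key : ∀ k, τ + k ≤ n → GoodV l (vx (z (τ + k))) := by
    intro k
    induction k with
    | zero => intro _; exact hmv
    | succ k ih =>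
      intro hk
      have ih' := ih (by omega)
      have h3 : InV l (vx (z (τ + (k + 1)))) := by
        by_contra h3
        obtain ⟨j, h4, h5, h6, -⟩ := next_in hl hP hz hk h3 hn
        exact hinj τ j (by omega) h5 (hm.trans h6.symm)
      rw [← add_assoc, hz] at h3 ⊢
      exact good_step hl hP ih' h3
  refine ⟨τ, hτ, hm, fun j hj => out_lab (hbef j (Nat.zero_le _) hj), ?_⟩
  intro j hj hjn
  have h3 := key (j - τ) (by omega)
  rw [show τ + (j - τ) = j by omega] at h3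
  rcases good_lab hl h3 with h4 | h4
  · exact h4
  · exfalso
    -- the strand would leave the box, or visit the point `m` again
    have h5 := hz j
    rw [h4] at h5
    by_cases h6 : lab (2 * l + 1, 0) ∈ w
    · have h7 : z (j + 1) = (2 * l + 2, 0) := by
        rw [h5]; unfold nx; rw [if_pos h6]
        unfold nxO
        simp only [show (0 : ℤ) % 2 = 0 from rfl, if_true, show ¬ (2 * l + 1) % 2 = 0 by omega,
          if_false]
        ring_nf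
      have h8 := key (j + 1 - τ) (by omega)
      rw [show τ + (j + 1 - τ) = j + 1 by omega, h7] at h8
      unfold GoodV vx at h8
      simp only [Prod.mk.injEq] at h8
      omega
    · have h7 : z (j + 1) = (2 * l + 1, 1) := by
        rw [h5]; unfold nx; rw [if_neg h6]
        unfold nxC
        simp only [show (0 : ℤ) % 2 = 0 from rfl, if_true, show ¬ (2 * l + 1) % 2 = 0 by omega,
          if_false]
        ring_nf
      exact hinj τ (j + 1) (by omega) (by omega) (hm.trans h7.symm)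

end

end Pool.Agent.H53.ZF
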