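import Mathlib
import Pool.Agent.Q1.Rigid

set_option autoImplicit false
open Finset

/-! # The turning index is constant along alive configurations

`K_rigid`: if a corner is on the path before and after the exchange at a tile then its index is the same.
`K_interval`: the index at `c` is the same in `ω1 ⊆ ω2` if `c` is on the path of all configurations in
between. -/

namespace Pool.Agent.H53.ZF

open Pool.Agent.H75.Perc Pool.Agent.H75.TwoArm Pool.Agent.Q1 Pool.Agent.Q1.Env

variable {X : Env}

lemma K_rigid {ω ω' : Finset (ℤ × ℤ)} (hω : ω ⊆ X.E) (hω' : ω' ⊆ X.E) {p q : ℤ × ℤ}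
    (hsw : Swapped (X.f ω) (X.f ω') p q) (hd : ∀ x, x ≠ p → x ≠ q → X.d ω' x = X.d ω x)
    {i i' : ℕ} (hi : i < X.len ω) (hi' : i' < X.len ω') (h : X.z ω i = X.z ω' i') :
    X.K ω i = X.K ω' i' := by
  have hO := Env.orb (X := X) hω
  have hO' := Env.orb (X := X) hω'
  by_cases hA : ∀ j < i, X.z ω j ≠ p ∧ X.z ω j ≠ q
  · -- the path before the corner does not meet the tile
    have h1 : ∀ j ≤ i, X.z ω' j = X.z ω j := hsw.agree X.c0 i hA
    have h2 : ∀ j ≤ i, X.K ω' j = X.K ω j := by
      intro j
      induction j with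
      | zero => intro _; rw [K_zero, K_zero]
      | succ j ih =>
        intro hj
        rw [K_succ, K_succ, ih (by omega), h1 j (by omega), hd _ (hA j (by omega)).1 (hA j (by omega)).2]
    have h3 : i < X.len ω' := by
      by_contra hcon
      have h4 : X.z ω' (X.len ω') = X.c0 := z_len hω'
      rw [h1 _ (by omega)] at h4
      exact absurd (Env.z_inj hω (i := 0) (j := X.len ω') (hO.pos) (by omega) h4.symm)
        (by have := hO'.pos; omega)
    have h4 : i = i' := Env.z_inj hω' h3 hi' (by rw [h1 i le_rfl, h])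
    subst h4
    exact (h2 i le_rfl).symm
  by_cases hB : ∀ j, i ≤ j → j < X.len ω → X.z ω j ≠ p ∧ X.z ω j ≠ q
  · have hi0 : 0 < i := by
      rcases Nat.eq_zero_or_pos i with h0 | h0
      · exfalso; apply hA; intro j hj; omega
      · exact h0
    have h1 : ∀ k, i + k ≤ X.len ω → X.z ω' (i' + k) = X.z ω (i + k) ∧
        X.K ω' (i' + k) - X.K ω' i' = X.K ω (i + k) - X.K ω i := by
      intro k
      induction k with
      | zero => intro _; exact ⟨h.symm, by simp⟩
      | succ k ih =>
        intro hk
        obtain ⟨e1, e2⟩ := ih (by omega)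
        obtain ⟨g1, g2⟩ := hB (i + k) (by omega) (by omega)
        constructor
        · rw [← add_assoc, ← add_assoc, z_succ, z_succ, e1]
          exact hsw.off _ g1 g2
        · rw [← add_assoc, ← add_assoc, K_succ, K_succ, e1, hd _ g1 g2]
          linarith
    have h2 := h1 (X.len ω - i) (by omega)
    rw [show i + (X.len ω - i) = X.len ω by omega, z_len hω] at h2
    have h3 : i' + (X.len ω - i) = X.len ω' := by
      rcases lt_trichotomy (i' + (X.len ω - i)) (X.len ω') with h4 | h4 | h4
      · have := Env.z_inj hω' (i := 0) (j := i' + (X.len ω - i)) hO'.pos h4 h2.1.symm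
        omega
      · exact h4
      · exfalso
        have h5 := h1 (X.len ω' - i') (by omega)
        rw [show i' + (X.len ω' - i') = X.len ω' by omega, z_len hω'] at h5
        have := Env.z_inj hω (i := 0) (j := i + (X.len ω' - i')) hO.pos (by omega) h5.1
        omega
    rw [h3, K_len hω', K_len hω] at h2
    linarith [h2.2]
  · exfalso
    push Not at hA hB
    obtain ⟨a, ha, ha'⟩ := hA
    obtain ⟨b, hb1, hb2, hb'⟩ := hB
    have key : ∀ {p q : ℤ × ℤ}, Swapped (X.f ω) (X.f ω') p q → X.z ω a = p → X.z ω b = q → False := by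
      intro p q hsw h1 h2
      obtain ⟨g1, g2, g3⟩ := hsw.split hO (a := a) (b := b) (by omega) hb2 h1 h2
      have h4 : X.len ω' = X.len ω - (b - a) := hO'.unique g3
      by_cases h5 : i' ≤ a
      · have h6 : X.z ω' i' = X.z ω i' := g1 i' h5
        rw [h6] at h
        have := Env.z_inj hω hi (by omega) h
        omega
      · have h6 := g2 (i' - (a + 1)) (by omega)
        rw [show a + 1 + (i' - (a + 1)) = i' by omega] at h6
        have h7 : X.z ω i = X.z ω (b + 1 + (i' - (a + 1))) := h.trans h6
        have := Env.z_inj hω hi (by omega) h7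
        omega
    by_cases ha1 : X.z ω a = p
    · by_cases hb1' : X.z ω b = p
      · have := Env.z_inj hω (i := a) (j := b) (by omega) hb2 (ha1.trans hb1'.symm)
        omega
      · exact key hsw ha1 (hb' hb1')
    · have ha2 := ha' ha1
      by_cases hb1' : X.z ω b = p
      · exact key hsw.comm ha2 hb1'
      · have := Env.z_inj hω (i := a) (j := b) (by omega) hb2 (ha2.trans (hb' hb1').symm)
        omega

/-- adding one open tile -/
lemma K_insert {ω : Finset (ℤ × ℤ)} (hω : ω ⊆ X.E) {e : ℤ × ℤ} (he : e ∈ X.E)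
    {i i' : ℕ} (hi : i < X.len ω) (hi' : i' < X.len (insert e ω))
    (h : X.z ω i = X.z (insert e ω) i') : X.K ω i = X.K (insert e ω) i' := by
  by_cases hn : e ∈ ω
  · have e1 : insert e ω = ω := insert_eq_self.2 hn
    rw [e1] at hi' h ⊢
    rw [Env.z_inj hω hi hi' h]
  · exact K_rigid hω (insert_subset he hω) (swapped he hn) (d_off he) hi hi' h

/-- **The index is constant on intervals of alive configurations.** -/
theorem K_interval {ω1 ω2 : Finset (ℤ × ℤ)} (h12 : ω1 ⊆ ω2) (h2 : ω2 ⊆ X.E) {c : ℤ × ℤ}
    (hal : ∀ ω, ω1 ⊆ ω → ω ⊆ ω2 → X.On ω c) {i i' : ℕ} (hi : i < X.len ω1) (hz : X.z ω1 i = c)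
    (hi' : i' < X.len ω2) (hz' : X.z ω2 i' = c) : X.K ω1 i = X.K ω2 i' := by
  have key : ∀ S : Finset (ℤ × ℤ), S ⊆ ω2 → ∀ j, j < X.len (ω1 ∪ S) → X.z (ω1 ∪ S) j = c →
      X.K ω1 i = X.K (ω1 ∪ S) j := by
    intro S
    induction S using Finset.induction_on with
    | empty =>
      intro _ j hj hj'
      rw [union_empty] at hj hj' ⊢
      rw [Env.z_inj (h12.trans h2) hi hj (hz.trans hj'.symm)]
    | insert a S ha ih =>
      intro hS j hj hj'
      have hS' : S ⊆ ω2 := (subset_insert _ _).trans hS
      have haE : a ∈ X.E := h2 (hS (mem_insert_self _ _))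
      obtain ⟨k, hk, hk'⟩ := hal (ω1 ∪ S) subset_union_left (union_subset h12 hS')
      rw [ih hS' k hk hk']
      rw [union_insert] at hj hj' ⊢
      exact K_insert ((union_subset h12 hS').trans h2) haE hk hj (hk'.trans hj'.symm)
  have h3 := key ω2 (Finset.Subset.refl _) i'
  rw [union_eq_right.2 h12] at h3
  exact h3 hi' hz'

end Pool.Agent.H53.ZF
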