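import Mathlib
import Pool.Agent.H53.ZF.Dis
import Pool.Agent.H53.ZF.Gate
import Pool.Agent.H53.ZF.Rig
import Pool.Agent.H33.Q1.Inv

set_option autoImplicit false
open Finset

/-! # The index at the inner corner is the index in a canonical configuration -/

namespace Pool.Agent.H53.ZF

open Pool.Agent.H75.Perc Pool.Agent.H75.TwoArm Pool.Agent.Q1 Pool.Agent.H47.NC Pool.Agent.ZF
open Pool.Agent.H99.NC Pool.Agent.Q1.M6c Pool.Agent.H65.Four2

/-- labels of a list of rectangles -/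
noncomputable def lbs (l : List Rc) : Finset (ℤ × ℤ) := l.foldr (fun ρ S => ρ.lb ∪ S) ∅

lemma mem_lbs {l : List Rc} {e : ℤ × ℤ} : e ∈ lbs l ↔ ∃ ρ ∈ l, e ∈ ρ.lb := by
  unfold lbs
  induction l with
  | nil => simp
  | cons a l ih => simp only [List.foldr_cons, mem_union, ih, List.mem_cons, exists_eq_or_imp]

lemma Rc.cr_mono {ρ : Rc} {v v' : Finset (ℤ × ℤ)} (h : ρ.cr v) (h' : ∀ e ∈ v, e ∈ ρ.lb → e ∈ v') :
    ρ.cr v' := by
  have h1 : v ∩ Bx ρ.a ρ.b ρ.c ρ.d ⊆ v' ∩ Bx ρ.a ρ.b ρ.c ρ.d := by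
    intro e he
    rw [mem_inter] at he ⊢
    exact ⟨h' e he.1 he.2, he.2⟩
  unfold Rc.cr at h ⊢
  by_cases hv : ρ.v = true
  · rw [if_pos hv] at h ⊢
    obtain ⟨p, q, g1, g2, g3, g4⟩ := h
    exact ⟨p, q, g1, g2, g3, g4.mono h1⟩
  · rw [if_neg hv] at h ⊢
    obtain ⟨p, q, g1, g2, g3, g4⟩ := h
    exact ⟨p, q, g1, g2, g3, g4.mono h1⟩

/-- the label of a corner is next to its vertex -/
lemma lab_near (z : ℤ × ℤ) : (2 * (vx z).1 - 1 ≤ (lab z).1 ∧ (lab z).1 ≤ 2 * (vx z).1 + 1) ∧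
    (2 * (vx z).2 - 1 ≤ (lab z).2 ∧ (lab z).2 ≤ 2 * (vx z).2 + 1) := by
  obtain ⟨a, b⟩ := z
  rcases ty_cases (a, b) with ⟨-, g1, g2, g3, -, g5⟩ | ⟨-, g1, g2, g3, -, g5⟩ |
      ⟨-, g1, g2, g3, -, g5⟩ | ⟨-, g1, g2, g3, -, g5⟩ <;>
  simp only at g1 g2 g3 g5 <;> rw [g3] <;>
  simp only [vx] <;> omega

/-- a nice tip is not close to the corners of the box nor to the gate -/
lemma y_bd {R u y : ℤ} {i : ℕ} {w : Finset (ℤ × ℤ)} {c0 : ℤ × ℤ} (hi : i < 4) (_hu : 1 ≤ u)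
    (hN : Nice R u w c0) (hS : Side' i R y w c0) :
    |y| ≤ R - 39 * u ∧ (i = 0 → 39 * u ≤ |y|) := by
  obtain ⟨a, ha, hav⟩ := hS
  obtain ⟨-, hnear, -⟩ := hN
  have hno : ∀ q : ℤ × ℤ, (q = (R, R) ∨ q = (-R, R) ∨ q = (-R, -R) ∨ q = (R, -R) ∨ q = (R, 0)) →
      ¬ NearL q (40 * u) (lab a) := fun q hq h =>
    hnear ⟨q, hq, lab a, h, Or.inr (Or.inl ⟨a, ha, rfl⟩)⟩
  have h1 := hno (R, R) (by simp)
  have h2 := hno (-R, R) (by simp)
  have h3 := hno (-R, -R) (by simp)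
  have h4 := hno (R, -R) (by simp)
  have h5 := hno (R, 0) (by simp)
  obtain ⟨n, -, hB, -⟩ := ha
  unfold H75.TwoArm.BB at hB
  rw [mem_Bx] at hB
  have hl := lab_near a
  rw [hav] at hl
  unfold NearL at h1 h2 h3 h4 h5
  simp only [abs_le] at h1 h2 h3 h4 h5 ⊢
  rw [le_abs]
  interval_cases i
  · simp only [Function.iterate_zero, id_eq] at hl
    constructor
    · omega
    · intro _; omega
  · simp only [Function.iterate_succ, Function.iterate_zero, Function.comp_apply, id_eq, rotv] at hl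
    constructor
    · omega
    · intro h; omega
  · simp only [Function.iterate_succ, Function.iterate_zero, Function.comp_apply, id_eq, rotv] at hl
    constructor
    · omega
    · intro h; omega
  · simp only [Function.iterate_succ, Function.iterate_zero, Function.comp_apply, id_eq, rotv] at hl
    constructor
    · omega
    · intro h; omega

/-- the outer open rectangles -/
def outO (i : ℕ) (R u y : ℤ) : List Rc := (hookO R u y ++ ringO R u y).map (Rc.rot^[i])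

/-- the inner open rectangles -/
def inO (s r L t1 : ℤ) : List Rc := ⟨true, r + 16 * s, r + 20 * s, -(2 * L), 2 * L⟩ :: innO s r t1

/-- the strip of the gate -/
def strip (R u s r : ℤ) : Rc := ⟨false, r + 16 * s, R - 16 * u, -u, u⟩

lemma mem_allO {i : ℕ} {R u s r L y t1 : ℤ} {ρ : Rc} : ρ ∈ allO i R u s r L y t1 ↔
    ρ ∈ outO i R u y ∨ ρ ∈ inO s r L t1 ∨ ρ = strip R u s r := by
  unfold allO outO inO gateO strip
  simp only [List.mem_append, List.mem_cons, List.not_mem_nil, or_false]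
  tauto

/-- the row of the gate -/
noncomputable def Row (R u s r : ℤ) : Finset (ℤ × ℤ) :=
  (strip R u s r).lb.filter (fun e => e.2 = 0)

lemma mem_Row {R u s r : ℤ} (hu : 0 ≤ u) {e : ℤ × ℤ} : e ∈ Row R u s r ↔
    (2 * (r + 16 * s) ≤ e.1 ∧ e.1 ≤ 2 * (R - 16 * u)) ∧ e.1 % 2 = 1 ∧ e.2 = 0 := by
  unfold Row strip Rc.lb
  rw [mem_filter, mem_Bx]
  simp only
  omega

/-- the row crosses the strip -/
lemma row_cr {R u s r : ℤ} (hu : 0 ≤ u) (h : r + 16 * s ≤ R - 16 * u) {v : Finset (ℤ × ℤ)}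
    (hv : Row R u s r ⊆ v) : (strip R u s r).cr v := by
  unfold Rc.cr strip
  simp only [Bool.false_eq_true, if_false]
  refine ⟨(r + 16 * s, 0), (R - 16 * u, 0), by unfold inB; simp only; omega, rfl, rfl, ?_⟩
  have key : ∀ n : ℕ, r + 16 * s + n ≤ R - 16 * u →
      Co (v ∩ Bx (r + 16 * s) (R - 16 * u) (-u) u) (r + 16 * s, 0) (r + 16 * s + n, 0) := by
    intro n
    induction n with
    | zero =>
      intro _
      rw [Nat.cast_zero, add_zero]
      exact Relation.ReflTransGen.refl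
    | succ n ih =>
      intro hn
      push_cast at hn ⊢
      refine Relation.ReflTransGen.tail (ih (by linarith)) ⟨?_, ?_⟩
      · have : ((r + 16 * s + (n + 1), 0) : ℤ × ℤ) - (r + 16 * s + n, 0) = (1, 0) := by
          refine Prod.ext ?_ ?_ <;> simp
        rw [this]
        unfold IsUnit4
        simp
      · rw [mem_inter]
        have h1 : ((r + 16 * s + n, 0) : ℤ × ℤ) + (r + 16 * s + (n + 1), 0) ∈ Row R u s r := by
          rw [mem_Row hu]
          simp only [Prod.mk_add_mk, add_zero, and_true]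
          omega
        refine ⟨hv h1, ?_⟩
        have h2 := (mem_filter.1 (show _ ∈ (strip R u s r).lb.filter _ from h1)).1
        exact h2
  obtain ⟨n, hn⟩ := Int.eq_ofNat_of_zero_le (show 0 ≤ (R - 16 * u) - (r + 16 * s) by linarith)
  have h1 := key n (by rw [← hn]; linarith)
  rw [← hn] at h1
  rwa [show r + 16 * s + (R - 16 * u - (r + 16 * s)) = R - 16 * u by ring] at h1

/-- the revealed labels of the inner part are in the box -/
lemma DU_sub {t r L t1 t2 : ℤ} {w : Finset (ℤ × ℤ)} (h0 : 0 ≤ r) (hr : r ≤ L) {e : ℤ × ℤ}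
    (he : e ∈ DU t r L t1 t2 w) : (-(4 * L) ≤ e.1 ∧ e.1 ≤ 2 * r) ∧ (-(4 * L) ≤ e.2 ∧ e.2 ≤ 4 * L) ∧
      (e.1 + e.2) % 2 = 1 := by
  rw [mem_DU] at he
  rcases he with he | ⟨he, -⟩
  · unfold H75.TwoArm.BB at he
    rw [mem_Bx] at he
    omega
  · unfold H75.TwoArm.BE at he
    rw [mem_Bx] at he
    omega

/-- all open rectangles are in the double box -/
lemma allO_sub {s r L R u : ℤ} (g1 : 1 ≤ s) (g2 : 16 * s ≤ r) (g3 : r ≤ L) (g4 : R = 16 * L)
    (g5 : 1 ≤ u) (g6 : 1000 * u ≤ R) {i : ℕ} {y t1 : ℤ} (hi : i < 4) (hy : |y| ≤ R - 39 * u)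
    (h1 : |t1| ≤ L) {e : ℤ × ℤ} (hO : ∃ ρ ∈ allO i R u s r L y t1, e ∈ ρ.lb) : e ∈ BB (2 * R) := by
  obtain ⟨a, b⟩ := e
  rw [abs_le] at hy h1
  unfold allO hookO ringO gateO innO Rc.lb at hO
  unfold H75.TwoArm.BB
  rw [mem_Bx]
  interval_cases i <;>
  simp only [List.map_append, List.map_cons, List.map_nil, List.mem_append, List.mem_cons,
      List.not_mem_nil, or_false, Function.iterate_succ, Function.iterate_zero, Function.comp_apply,
      id_eq, or_and_right, exists_or, exists_eq_left, Rc.rot, mem_Bx, or_assoc] at hO <;>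
  omega

/-- the outer open rectangles are far from the inner box -/
lemma outO_far {s r L R u : ℤ} (g1 : 1 ≤ s) (g2 : 16 * s ≤ r) (g3 : r ≤ L) (g4 : R = 16 * L)
    (g6 : 1000 * u ≤ R) {i : ℕ} {y : ℤ} (hi : i < 4)
    {e : ℤ × ℤ} (hO : ∃ ρ ∈ outO i R u y, e ∈ ρ.lb) :
    e.1 ≤ -(20 * L) ∨ 20 * L ≤ e.1 ∨ e.2 ≤ -(20 * L) ∨ 20 * L ≤ e.2 := by
  obtain ⟨a, b⟩ := e
  unfold outO hookO ringO Rc.lb at hO
  interval_cases i <;>
  simp only [List.map_append, List.map_cons, List.map_nil, List.mem_append, List.mem_cons,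
      List.not_mem_nil, or_false, Function.iterate_succ, Function.iterate_zero, Function.comp_apply,
      id_eq, or_and_right, exists_or, exists_eq_left, Rc.rot, mem_Bx, or_assoc] at hO ⊢ <;>
  omega

/-- the inner open rectangles are in the inner box -/
lemma inO_near {s r L : ℤ} (g1 : 1 ≤ s) (g2 : 16 * s ≤ r) (g3 : r ≤ L) {t1 : ℤ} (h1 : |t1| ≤ L)
    {e : ℤ × ℤ} (hO : ∃ ρ ∈ inO s r L t1, e ∈ ρ.lb) :
    (-(5 * L) ≤ e.1 ∧ e.1 ≤ 5 * L) ∧ (-(5 * L) ≤ e.2 ∧ e.2 ≤ 5 * L) := by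
  obtain ⟨a, b⟩ := e
  rw [abs_le] at h1
  unfold inO innO Rc.lb at hO
  simp only [List.mem_cons, List.not_mem_nil, or_false, or_and_right, exists_or, exists_eq_left,
    mem_Bx] at hO ⊢
  omega

/-! ### Alive configurations -/

/-- the hypotheses of `T5` -/
structure Hy (M1 k Mh : ℕ) (t s r L R u : ℤ) (X : Env) (W ω : Finset (ℤ × ℤ)) (c : ℤ × ℤ) (i : ℕ)
    (y t1 t2 : ℤ) : Prop where
  hM1 : 1 ≤ M1
  hMh : 1000 ≤ Mh
  hp : Par M1 k Mh t s r L R u
  hG : GE X W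
  hE : BB (2 * R) ⊆ X.E
  hc0 : R < |(vx X.c0).1| ∨ R < |(vx X.c0).2|
  hω : ω ⊆ X.E
  hi : i < 4
  hN : Nice R u (ω ∪ W) X.c0
  hS : Side' i R y (ω ∪ W) X.c0
  hc : C0 c
  hD : Dgood t s r L t1 t2 ω
  hEa : East r (2 * L) ω c t1 t2

/-- the labels which are regarded as open and closed -/
noncomputable def Us (X : Env) (W : Finset (ℤ × ℤ)) (t r L R t1 t2 : ℤ) (ω : Finset (ℤ × ℤ)) :
    Finset (ℤ × ℤ) := ExL X.E (ω ∪ W) (BB R) X.c0 ∪ DU t r L t1 t2 ω

/-- all known labels -/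
noncomputable def RV (X : Env) (W : Finset (ℤ × ℤ)) (t r L R t1 t2 : ℤ) (ω : Finset (ℤ × ℤ)) :
    Finset (ℤ × ℤ) := AR X.E W X.c0 R ω ∪ DU t r L t1 t2 ω

section

variable {M1 k Mh : ℕ} {t s r L R u : ℤ} {X : Env} {W ω ω' : Finset (ℤ × ℤ)} {c : ℤ × ℤ} {i : ℕ}
  {y t1 t2 : ℤ}

lemma Us_sub : Us X W t r L R t1 t2 ω ⊆ RV X W t r L R t1 t2 ω := by
  unfold Us RV AR
  intro e he
  rw [mem_union] at he
  rw [mem_union, mem_union]
  tauto

/-- **Alive configurations.** -/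
theorem Hy.alive (h2 : T2) (h6 : T6) (H : Hy M1 k Mh t s r L R u X W ω c i y t1 t2)
    (hω' : ω' ⊆ X.E) (hRV : ∀ e ∈ RV X W t r L R t1 t2 ω, (e ∈ ω ↔ e ∈ ω'))
    (hH : Holds (allO i R u s r L y t1) (allD i R u s r y t1 t2) X.E ω'
      (Us X W t r L R t1 t2 ω)) : X.On ω' c := by
  obtain ⟨g0, g0', g1, g2, g3, g4, g5, g6, -⟩ := Par.lin H.hM1 H.hMh H.hp
  have hAR : ω ∩ AR X.E W X.c0 R ω = ω' ∩ AR X.E W X.c0 R ω := by
    ext e
    rw [mem_inter, mem_inter]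
    constructor
    · rintro ⟨h1, h3⟩
      exact ⟨(hRV e (mem_union_left _ h3)).1 h1, h3⟩
    · rintro ⟨h1, h3⟩
      exact ⟨(hRV e (mem_union_left _ h3)).2 h1, h3⟩
  have hWd : ∀ e ∈ DU t r L t1 t2 ω, e ∉ W := by
    intro e he hW
    have h1 := DU_sub (by linarith) g3 he
    have h3 : e ∈ X.E := by
      apply H.hE
      unfold H75.TwoArm.BB
      rw [mem_Bx]
      omega
    exact (disjoint_left.1 H.hG.disj) h3 hW
  have hDU : ∀ e ∈ DU t r L t1 t2 ω, (e ∈ ω ↔ e ∈ ω' ∪ W) := by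
    intro e he
    rw [mem_union, hRV e (mem_union_right _ he)]
    have := hWd e he
    tauto
  have hN := (nice_iff (u := u) H.hω hω' hAR).2 H.hN
  have hS := (side_iff (i := i) (y := y) H.hω hω' hAR).2 H.hS
  have hD := Dgood_congr hDU H.hD
  have hDUe := DU_congr hDU
  have hEx := ExL_congr H.hω hω' hAR
  have hLe : Leave (BB (r / 2)) (ω' ∪ W) c := by
    have h1 : Leave (BB (r / 2)) ω c := by
      obtain ⟨⟨j, hj1, hj2, -⟩, -⟩ := H.hEa
      refine ⟨j, fun h3 => hj2 ?_⟩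
      rw [hj1] at h3
      unfold H75.TwoArm.BB at h3
      unfold H75.TwoArm.BE
      rw [mem_Bx] at h3 ⊢
      omega
    exact Leave_congr (fun e he => hDU e (mem_DU.2 (Or.inl he))) h1
  have hEa := h6 M1 k Mh t s r L R u H.hM1 H.hp (ω' ∪ W) c t1 t2 H.hc hD hLe
  have hHold : Holds (allO i R u s r L y t1) (allD i R u s r y t1 t2) X.E (ω' ∪ W)
      (ExL X.E (ω' ∪ W) (BB R) X.c0 ∪ DU t r L t1 t2 (ω' ∪ W)) := by
    rw [hDUe, hEx]
    refine ⟨fun ρ hρ => Rc.cr_mono (hH.1 ρ hρ) ?_, fun ρ hρ => Rc.cr_mono (hH.2 ρ hρ) ?_⟩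
    · intro e he _
      unfold Us at he
      rw [mem_union] at he
      rw [mem_union, mem_union]
      tauto
    · intro e he _
      unfold Us at he
      rw [CorrAux.mem_du'] at he ⊢
      refine ⟨he.1, fun h1 => he.2 ?_⟩
      rw [mem_sdiff, mem_union] at h1
      rw [mem_sdiff]
      rcases h1.1 with h3 | h3
      · exact ⟨h3, h1.2⟩
      · exact absurd h3 ((disjoint_left.1 H.hG.disj) he.1)
  obtain ⟨k1, k2⟩ := h2 M1 k Mh t s r L R u H.hM1 H.hMh H.hp (ω' ∪ W) X.E X.c0 c i y t1 t2 H.hi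
    H.hE H.hc0 hN hS H.hc hD hEa hHold
  obtain ⟨n, hn⟩ := Pool.Agent.H33.Q1.inOrb_iff_dco.2 ⟨k1, k2⟩
  have hO := Env.orb (X := X) hω'
  refine ⟨n % X.len ω', Nat.mod_lt _ hO.pos, ?_⟩
  unfold Env.z
  rw [hO.mod]
  have h3 := H.hG.zz ω' hω' n
  unfold Env.z at h3
  rw [h3, hn]

lemma mem_RV {e : ℤ × ℤ} (he : e ∈ RV X W t r L R t1 t2 ω) : e ∉ BB (2 * R) ∨
    MetL (ω ∪ W) (BB R) X.c0 e ∨ e ∈ DU t r L t1 t2 ω := by
  classical
  unfold RV AR ExL at he
  rw [mem_union, mem_union, mem_sdiff] at he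
  rcases he with (he | he) | he
  · exact Or.inl he.2
  · exact Or.inr (Or.inl (mem_filter.1 he).2)
  · exact Or.inr (Or.inr he)

/-- the canonical configuration -/
noncomputable def can (i : ℕ) (R u s r L y t1 : ℤ) (V ω : Finset (ℤ × ℤ)) : Finset (ℤ × ℤ) :=
  (ω ∩ V) ∪ ((lbs (outO i R u y ++ inO s r L t1) ∪ Row R u s r) \ V)

lemma Hy.holds (H : Hy M1 k Mh t s r L R u X W ω c i y t1 t2) {U : Finset (ℤ × ℤ)}
    (hH : Holds (allO i R u s r L y t1) (allD i R u s r y t1 t2) X.E ω U)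
    (hO : ∀ e ∈ ω, (∃ ρ, (ρ ∈ outO i R u y ∨ ρ ∈ inO s r L t1) ∧ e ∈ ρ.lb) → e ∈ ω' ∨ e ∈ U)
    (hst : (strip R u s r).cr (ω' ∪ U))
    (hD : ∀ e ∈ ω', e ∉ ω → ∃ ρ ∈ allO i R u s r L y t1, e ∈ ρ.lb) :
    Holds (allO i R u s r L y t1) (allD i R u s r y t1 t2) X.E ω' U := by
  refine ⟨fun ρ hρ => ?_, fun ρ hρ => Rc.cr_mono (hH.2 ρ hρ) ?_⟩
  · rw [mem_allO] at hρ
    by_cases h : ρ = strip R u s r
    · rw [h]; exact hst
    · have h1 : ρ ∈ outO i R u y ∨ ρ ∈ inO s r L t1 := by tauto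
      refine Rc.cr_mono (hH.1 ρ (mem_allO.2 hρ)) ?_
      intro e he he'
      rw [mem_union] at he ⊢
      rcases he with he | he
      · exact hO e he ⟨ρ, h1, he'⟩
      · exact Or.inr he
  · intro e he he'
    rw [CorrAux.mem_du'] at he ⊢
    refine ⟨he.1, fun h1 => he.2 ?_⟩
    rw [mem_sdiff] at h1 ⊢
    refine ⟨?_, h1.2⟩
    by_contra h3
    obtain ⟨b1, b2⟩ := y_bd H.hi H.hp.u1 H.hN H.hS
    have h4 : sh1 (e - (1, 1)) = e := by
      unfold sh1
      refine Prod.ext ?_ ?_ <;> simp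
    exact dis H.hM1 H.hMh H.hp H.hi b1 b2 H.hD.h1 H.hD.h2 H.hD.sep (hD _ h1.1 h3)
      ⟨ρ, hρ, by rw [h4]; exact he'⟩

lemma mem_can {V : Finset (ℤ × ℤ)} {e : ℤ × ℤ} : e ∈ can i R u s r L y t1 V ω ↔
    (e ∈ ω ∧ e ∈ V) ∨ (((∃ ρ, (ρ ∈ outO i R u y ∨ ρ ∈ inO s r L t1) ∧ e ∈ ρ.lb) ∨
      e ∈ Row R u s r) ∧ e ∉ V) := by
  unfold can
  rw [mem_union, mem_inter, mem_sdiff, mem_union, mem_lbs]
  simp only [List.mem_append]

lemma Hy.sub (H : Hy M1 k Mh t s r L R u X W ω c i y t1 t2) {e : ℤ × ℤ}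
    (he : ∃ ρ ∈ allO i R u s r L y t1, e ∈ ρ.lb) : e ∈ X.E := by
  obtain ⟨-, -, g1, g2, g3, g4, g5, g6, -⟩ := Par.lin H.hM1 H.hMh H.hp
  obtain ⟨b1, b2⟩ := y_bd H.hi H.hp.u1 H.hN H.hS
  exact H.hE (allO_sub g1 g2 g3 g4 g5 g6 H.hi b1 H.hD.h1 he)

lemma row_all {e : ℤ × ℤ} (he : e ∈ Row R u s r) : ∃ ρ ∈ allO i R u s r L y t1, e ∈ ρ.lb :=
  ⟨strip R u s r, mem_allO.2 (Or.inr (Or.inr rfl)), (mem_filter.1 he).1⟩

lemma Hy.row_RV (H : Hy M1 k Mh t s r L R u X W ω c i y t1 t2) {e : ℤ × ℤ}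
    (he : e ∈ Row R u s r) : e ∉ RV X W t r L R t1 t2 ω := by
  obtain ⟨-, -, g1, g2, g3, g4, g5, g6, -⟩ := Par.lin H.hM1 H.hMh H.hp
  rw [mem_Row (by linarith)] at he
  have hBR : e ∈ BB R := by
    unfold H75.TwoArm.BB
    rw [mem_Bx]
    omega
  intro h1
  rcases mem_RV h1 with h1 | h1 | h1
  · apply h1
    unfold H75.TwoArm.BB
    rw [mem_Bx]
    omega
  · rcases h1 with ⟨n, h3, h4⟩ | ⟨n, h3, h4⟩
    · exact h4 n le_rfl (by rw [h3]; exact hBR)
    · exact h4 n le_rfl (by rw [h3]; exact hBR)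
  · have := DU_sub (by linarith) g3 h1
    omega

/-- **The index is the index in the canonical configuration.** -/
theorem Hy.K_can (h2 : T2) (h6 : T6) (H : Hy M1 k Mh t s r L R u X W ω c i y t1 t2)
    (hH : Holds (allO i R u s r L y t1) (allD i R u s r y t1 t2) X.E ω (Us X W t r L R t1 t2 ω))
    {n : ℕ} (hn : n < X.len ω) (hz : X.z ω n = c) :
    can i R u s r L y t1 (RV X W t r L R t1 t2 ω) ω ⊆ X.E ∧
    ∃ n' < X.len (can i R u s r L y t1 (RV X W t r L R t1 t2 ω) ω),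
      X.z (can i R u s r L y t1 (RV X W t r L R t1 t2 ω) ω) n' = c ∧
      X.K ω n = X.K (can i R u s r L y t1 (RV X W t r L R t1 t2 ω) ω) n' := by
  classical
  obtain ⟨-, -, g1, g2, g3, g4, g5, g6, -⟩ := Par.lin H.hM1 H.hMh H.hp
  set V := RV X W t r L R t1 t2 ω with hV
  set U := Us X W t r L R t1 t2 ω with hU
  have hUV : U ⊆ V := Us_sub
  set FO : Finset (ℤ × ℤ) := lbs (allO i R u s r L y t1) with hFO
  have mFO : ∀ e, e ∈ FO ↔ ∃ ρ ∈ allO i R u s r L y t1, e ∈ ρ.lb := fun e => mem_lbs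
  have hFOE : FO ⊆ X.E := fun e he => H.sub ((mFO e).1 he)
  set ω1 := ω ∪ (FO \ V) with hω1
  set ω3 := (ω ∩ V) ∪ (FO \ V) with hω3
  set ω4 := can i R u s r L y t1 V ω with hω4
  have s31 : ω3 ⊆ ω1 := by
    intro e he
    rw [hω3, mem_union, mem_inter] at he
    rw [hω1, mem_union]
    tauto
  have s01 : ω ⊆ ω1 := subset_union_left
  have e1 : ω1 ⊆ X.E := union_subset H.hω (sdiff_subset.trans hFOE)
  have e3 : ω3 ⊆ X.E := s31.trans e1
  have s43 : ω4 ⊆ ω3 := by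
    intro e he
    rw [hω4, mem_can] at he
    rw [hω3, mem_union, mem_inter, mem_sdiff, mFO]
    rcases he with he | ⟨he | he, he'⟩
    · exact Or.inl he
    · obtain ⟨ρ, h1, h3⟩ := he
      refine Or.inr ⟨⟨ρ, mem_allO.2 ?_, h3⟩, he'⟩
      tauto
    · exact Or.inr ⟨row_all he, he'⟩
  have e4 : ω4 ⊆ X.E := s43.trans e3
  -- the strip
  have hst0 : (strip R u s r).cr (ω ∪ U) := hH.1 _ (mem_allO.2 (Or.inr (Or.inr rfl)))
  -- first interval
  have I1 : ∀ ω', ω ⊆ ω' → ω' ⊆ ω1 → X.On ω' c := by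
    intro ω' h01 h11
    refine H.alive h2 h6 (h11.trans e1) ?_ ?_
    · intro e he
      refine ⟨fun h => h01 h, fun h => ?_⟩
      have := h11 h
      rw [hω1, mem_union, mem_sdiff] at this
      tauto
    · refine H.holds hH (fun e he _ => Or.inl (h01 he)) ?_ ?_
      · exact Rc.cr_mono hst0 fun e he _ => by
          rw [mem_union] at he ⊢
          rcases he with he | he
          · exact Or.inl (h01 he)
          · exact Or.inr he
      · intro e he hne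
        have := h11 he
        rw [hω1, mem_union, mem_sdiff, mFO] at this
        tauto
  -- second interval
  have I2 : ∀ ω', ω3 ⊆ ω' → ω' ⊆ ω1 → X.On ω' c := by
    intro ω' h31 h11
    have hin : ∀ e ∈ ω, (∃ ρ ∈ allO i R u s r L y t1, e ∈ ρ.lb) → e ∈ ω' := by
      intro e he hρ
      apply h31
      rw [hω3, mem_union, mem_inter, mem_sdiff, mFO]
      by_cases heV : e ∈ V
      · exact Or.inl ⟨he, heV⟩
      · exact Or.inr ⟨hρ, heV⟩
    refine H.alive h2 h6 (h11.trans e1) ?_ ?_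
    · intro e he
      refine ⟨fun h => h31 ?_, fun h => ?_⟩
      · rw [hω3, mem_union, mem_inter]
        exact Or.inl ⟨h, he⟩
      · have := h11 h
        rw [hω1, mem_union, mem_sdiff] at this
        tauto
    · refine H.holds hH (fun e he hρ => Or.inl (hin e he ?_)) ?_ ?_
      · obtain ⟨ρ, h1, h3⟩ := hρ
        exact ⟨ρ, mem_allO.2 (by tauto), h3⟩
      · exact Rc.cr_mono hst0 fun e he he' => by
          rw [mem_union] at he ⊢
          rcases he with he | he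
          · exact Or.inl (hin e he ⟨_, mem_allO.2 (Or.inr (Or.inr rfl)), he'⟩)
          · exact Or.inr he
      · intro e he hne
        have := h11 he
        rw [hω1, mem_union, mem_sdiff, mFO] at this
        tauto
  -- third interval
  have I3 : ∀ ω', ω4 ⊆ ω' → ω' ⊆ ω3 → X.On ω' c := by
    intro ω' h41 h31
    refine H.alive h2 h6 (h31.trans e3) ?_ ?_
    · intro e he
      refine ⟨fun h => h41 ?_, fun h => ?_⟩
      · rw [hω4, mem_can]
        exact Or.inl ⟨h, he⟩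
      · have := h31 h
        rw [hω3, mem_union, mem_inter, mem_sdiff] at this
        tauto
    · refine H.holds hH (fun e he hρ => Or.inl (h41 ?_)) ?_ ?_
      · rw [hω4, mem_can]
        by_cases heV : e ∈ V
        · exact Or.inl ⟨he, heV⟩
        · exact Or.inr ⟨Or.inl hρ, heV⟩
      · refine row_cr (by linarith) (by linarith) fun e he => ?_
        rw [mem_union]
        left
        apply h41
        rw [hω4, mem_can]
        exact Or.inr ⟨Or.inr he, H.row_RV he⟩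
      · intro e he hne
        have := h31 he
        rw [hω3, mem_union, mem_inter, mem_sdiff, mFO] at this
        tauto
  obtain ⟨n1, a1, b1⟩ := I1 ω1 s01 (Subset.refl _)
  obtain ⟨n3, a3, b3⟩ := I2 ω3 (Subset.refl _) s31
  obtain ⟨n4, a4, b4⟩ := I3 ω4 (Subset.refl _) s43
  refine ⟨e4, n4, a4, b4, ?_⟩
  rw [K_interval s01 e1 I1 hn hz a1 b1, ← K_interval s31 e1 I2 a3 b3 a1 b1,
    ← K_interval s43 e3 I3 a4 b4 a3 b3]

/-- **The moat of the canonical configuration.** -/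
theorem Hy.moat (H : Hy M1 k Mh t s r L R u X W ω c i y t1 t2) :
    Moat (3 * L) (can i R u s r L y t1 (RV X W t r L R t1 t2 ω) ω ∪ W) := by
  obtain ⟨-, -, g1, g2, g3, g4, g5, g6, -⟩ := Par.lin H.hM1 H.hMh H.hp
  obtain ⟨b1, b2⟩ := y_bd H.hi H.hp.u1 H.hN H.hS
  intro e he h1 h3 h4
  rw [mem_union, mem_can] at he
  have hBR : (e.1 + e.2) % 2 = 1 → e ∈ BB (2 * R) := by
    intro h5
    unfold H75.TwoArm.BB
    rw [mem_Bx]
    omega
  have hBR' : (e.1 + e.2) % 2 = 1 → e ∈ BB R := by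
    intro h5
    unfold H75.TwoArm.BB
    rw [mem_Bx]
    omega
  rcases he with ((⟨he, he'⟩ | ⟨he | he, he'⟩)) | he
  · exfalso
    have hodd := X.odd e (H.hω he)
    rcases mem_RV he' with h5 | h5 | h5
    · exact h5 (hBR hodd)
    · rcases h5 with ⟨n, h6, h7⟩ | ⟨n, h6, h7⟩
      · exact h7 n le_rfl (by rw [h6]; exact hBR' hodd)
      · exact h7 n le_rfl (by rw [h6]; exact hBR' hodd)
    · have := DU_sub (by linarith) g3 h5
      omega
  · exfalso
    obtain ⟨ρ, h5, h6⟩ := he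
    rcases h5 with h5 | h5
    · have := outO_far g1 g2 g3 g4 g6 H.hi ⟨ρ, h5, h6⟩
      omega
    · have := inO_near g1 g2 g3 H.hD.h1 ⟨ρ, h5, h6⟩
      omega
  · rw [mem_Row (by linarith)] at he
    omega
  · exfalso
    have h5 := hBR (H.hG.oddW e he)
    exact (disjoint_left.1 H.hG.disj) (H.hE h5) he

end

end Pool.Agent.H53.ZF
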