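import Mathlib
import Pool.Agent.H53.ZF.Can

set_option autoImplicit false
open Finset

/-! # T5: the index is the sum of an outer and an inner part -/

namespace Pool.Agent.H53.ZF

open Pool.Agent.H75.Perc Pool.Agent.H75.TwoArm Pool.Agent.Q1 Pool.Agent.H47.NC Pool.Agent.ZF
open Pool.Agent.H99.NC Pool.Agent.Q1.M6c Pool.Agent.H65.Four2

open Classical in
/-- index at the first visit of `b` of the strand from `a` -/
noncomputable def KF (w : Finset (ℤ × ℤ)) (a : ℤ × ℤ) (k0 : ℤ) (b : ℤ × ℤ) : ℤ :=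
  if h : ∃ j, (nx w)^[j] a = b then KK (nx w) (del w) a k0 (Nat.find h) else 0

lemma KK_congr {w w' : Finset (ℤ × ℤ)} {a : ℤ × ℤ} {k0 : ℤ} {n : ℕ}
    (h : ∀ j < n, (lab ((nx w)^[j] a) ∈ w ↔ lab ((nx w)^[j] a) ∈ w')) :
    KK (nx w') (del w') a k0 n = KK (nx w) (del w) a k0 n := by
  have h1 := nx_iter_congr h
  unfold KK
  congr 1
  refine sum_congr rfl fun j hj => ?_
  rw [mem_range] at hj
  rw [h1 j hj.le]
  unfold H75.Perc.del
  by_cases h2 : lab ((nx w)^[j] a) ∈ w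
  · rw [if_pos h2, if_pos ((h j hj).1 h2)]
  · rw [if_neg h2, if_neg (fun h3 => h2 ((h j hj).2 h3))]

lemma KF_eq {w w' : Finset (ℤ × ℤ)} {a b : ℤ × ℤ} {k0 : ℤ} {n : ℕ} (hn : (nx w)^[n] a = b)
    (hf : ∀ j < n, (nx w)^[j] a ≠ b)
    (h : ∀ j < n, (lab ((nx w)^[j] a) ∈ w ↔ lab ((nx w)^[j] a) ∈ w')) :
    KF w' a k0 b = KK (nx w) (del w) a k0 n := by
  classical
  have h1 := nx_iter_congr h
  have hex : ∃ j, (nx w')^[j] a = b := ⟨n, by rw [h1 n le_rfl]; exact hn⟩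
  unfold KF
  rw [dif_pos hex]
  have h2 : Nat.find hex = n := by
    rw [Nat.find_eq_iff]
    exact ⟨by rw [h1 n le_rfl]; exact hn, fun j hj h3 => hf j hj (by rw [← h1 j hj.le]; exact h3)⟩
  rw [h2]
  exact KK_congr h

lemma KK_add {w : Finset (ℤ × ℤ)} {a : ℤ × ℤ} {k0 : ℤ} (m n : ℕ) :
    KK (nx w) (del w) a k0 (m + n) =
      KK (nx w) (del w) a k0 m + KK (nx w) (del w) ((nx w)^[m] a) 0 n := by
  unfold KK
  rw [sum_range_add, zero_add, add_assoc]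
  congr 2
  refine sum_congr rfl fun j _ => ?_
  rw [← Function.iterate_add_apply, add_comm j m]

lemma Rc.lb_odd {ρ : Rc} {e : ℤ × ℤ} (he : e ∈ ρ.lb) : (e.1 + e.2) % 2 = 1 := by
  unfold Rc.lb at he
  rw [mem_Bx] at he
  exact he.2.2

section

variable {M1 k Mh : ℕ} {t s r L R u : ℤ} {X : Env} {W ω ω' : Finset (ℤ × ℤ)} {c : ℤ × ℤ} {i : ℕ}
  {y t1 t2 : ℤ}

/-- outer part of the canonical configuration, as a function of the known labels -/
noncomputable def wout (X : Env) (W : Finset (ℤ × ℤ)) (R u s r : ℤ) (i : ℕ) (y : ℤ)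
    (S : Finset (ℤ × ℤ)) : Finset (ℤ × ℤ) :=
  (S ∪ ((lbs (outO i R u y) ∪ Row R u s r) \ AR X.E W X.c0 R S)) ∪ W

/-- inner part of the canonical configuration, as a function of the known labels -/
noncomputable def win (t s r L R u t1 t2 : ℤ) (S : Finset (ℤ × ℤ)) : Finset (ℤ × ℤ) :=
  S ∪ ((lbs (inO s r L t1) ∪ Row R u s r) \ DU t r L t1 t2 S)

/-- labels of `AR` are outside of the box -/
lemma AR_out {e : ℤ × ℤ} (_h0 : 0 ≤ R) (he : e ∈ AR X.E W X.c0 R ω) : e ∉ BB R := by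
  classical
  unfold AR ExL at he
  rw [mem_union, mem_sdiff] at he
  rcases he with he | he
  · intro h
    apply he.2
    unfold H75.TwoArm.BB at h ⊢
    rw [mem_Bx] at h ⊢
    omega
  · rcases (mem_filter.1 he).2 with ⟨n, h3, h4⟩ | ⟨n, h3, h4⟩
    · rw [← h3]; exact h4 n le_rfl
    · rw [← h3]; exact h4 n le_rfl

lemma Hy.agree_out (H : Hy M1 k Mh t s r L R u X W ω c i y t1 t2) {e : ℤ × ℤ}
    (he : e ∉ BB (3 * L)) :
    e ∈ can i R u s r L y t1 (RV X W t r L R t1 t2 ω) ω ∪ W ↔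
      e ∈ wout X W R u s r i y (ω ∩ AR X.E W X.c0 R ω) := by
  obtain ⟨-, -, g1, g2, g3, g4, g5, g6, -⟩ := Par.lin H.hM1 H.hMh H.hp
  have hAR : AR X.E W X.c0 R (ω ∩ AR X.E W X.c0 R ω) = AR X.E W X.c0 R ω :=
    AR_congr H.hω (inter_subset_left.trans H.hω) (by rw [inter_assoc, inter_self])
  unfold wout
  rw [hAR, mem_union, mem_union, mem_can, mem_union, mem_sdiff, mem_union, mem_lbs, mem_inter]
  have h1 : e ∉ DU t r L t1 t2 ω := by
    intro h
    apply he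
    have := DU_sub (by linarith) g3 h
    unfold H75.TwoArm.BB
    rw [mem_Bx]
    omega
  have h2 : ¬ ∃ ρ ∈ inO s r L t1, e ∈ ρ.lb := by
    intro h
    apply he
    have h3 := inO_near g1 g2 g3 H.hD.h1 h
    obtain ⟨ρ, -, h4⟩ := h
    have := Rc.lb_odd h4
    unfold H75.TwoArm.BB
    rw [mem_Bx]
    omega
  have h3 : e ∈ RV X W t r L R t1 t2 ω ↔ e ∈ AR X.E W X.c0 R ω := by
    unfold RV
    rw [mem_union]
    tauto
  have h4 : (∃ ρ, (ρ ∈ outO i R u y ∨ ρ ∈ inO s r L t1) ∧ e ∈ ρ.lb) ↔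
      ∃ ρ ∈ outO i R u y, e ∈ ρ.lb := by
    constructor
    · rintro ⟨ρ, h5 | h5, h6⟩
      · exact ⟨ρ, h5, h6⟩
      · exact absurd ⟨ρ, h5, h6⟩ h2
    · rintro ⟨ρ, h5, h6⟩
      exact ⟨ρ, Or.inl h5, h6⟩
  rw [h3, h4]

lemma Hy.agree_in (H : Hy M1 k Mh t s r L R u X W ω c i y t1 t2) {e : ℤ × ℤ}
    (he : e ∈ BB (3 * L)) :
    e ∈ can i R u s r L y t1 (RV X W t r L R t1 t2 ω) ω ∪ W ↔
      e ∈ win t s r L R u t1 t2 (ω ∩ DU t r L t1 t2 ω) := by
  obtain ⟨-, -, g1, g2, g3, g4, g5, g6, -⟩ := Par.lin H.hM1 H.hMh H.hp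
  have hDU : DU t r L t1 t2 (ω ∩ DU t r L t1 t2 ω) = DU t r L t1 t2 ω :=
    DU_congr (fun e h => by rw [mem_inter]; tauto)
  unfold win
  rw [hDU, mem_union, mem_can, mem_union, mem_sdiff, mem_union, mem_lbs, mem_inter]
  have h0 := he
  unfold H75.TwoArm.BB at h0
  rw [mem_Bx] at h0
  have h1 : e ∉ AR X.E W X.c0 R ω := by
    intro h
    apply AR_out (by linarith) h
    unfold H75.TwoArm.BB
    rw [mem_Bx]
    omega
  have hW : e ∉ W := by
    intro h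
    have h5 : e ∈ X.E := by
      apply H.hE
      unfold H75.TwoArm.BB
      rw [mem_Bx]
      omega
    exact (disjoint_left.1 H.hG.disj) h5 h
  have h2 : ¬ ∃ ρ ∈ outO i R u y, e ∈ ρ.lb := by
    intro h
    have h3 := outO_far g1 g2 g3 g4 g6 H.hi h
    omega
  have h3 : e ∈ RV X W t r L R t1 t2 ω ↔ e ∈ DU t r L t1 t2 ω := by
    unfold RV
    rw [mem_union]
    tauto
  have h4 : (∃ ρ, (ρ ∈ outO i R u y ∨ ρ ∈ inO s r L t1) ∧ e ∈ ρ.lb) ↔
      ∃ ρ ∈ inO s r L t1, e ∈ ρ.lb := by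
    constructor
    · rintro ⟨ρ, h5 | h5, h6⟩
      · exact absurd ⟨ρ, h5, h6⟩ h2
      · exact ⟨ρ, h5, h6⟩
    · rintro ⟨ρ, h5, h6⟩
      exact ⟨ρ, Or.inr h5, h6⟩
  rw [h3, h4]
  simp only [hW, or_false]

end

/-- **T5.** -/
theorem t5_of (h2 : T2) (h6 : T6) : T5 := by
  intro M1 k Mh t s r L R u hM1 hMh hp
  refine ⟨fun c t1 t2 S => KF (win t s r L R u t1 t2 S) (6 * L + 1, 1) 0 c, ?_⟩
  intro X W hG hE hc0
  refine ⟨fun i y S => KF (wout X W R u s r i y S) X.c0 X.k0 (6 * L + 1, 1), ?_⟩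
  intro ω c i y t1 t2 hω hi hN hS hc hD hEa hH n hn hz
  obtain ⟨-, -, g1, g2, g3, g4, g5, g6, -⟩ := Par.lin hM1 hMh hp
  have H : Hy M1 k Mh t s r L R u X W ω c i y t1 t2 :=
    ⟨hM1, hMh, hp, hG, hE, hc0, hω, hi, hN, hS, hc, hD, hEa⟩
  obtain ⟨e4, m, hm, hmz, hK⟩ := H.K_can h2 h6 hH hn hz
  set ω4 := can i R u s r L y t1 (RV X W t r L R t1 t2 ω) ω with hω4
  set w := ω4 ∪ W with hw
  have hzz : ∀ j, X.z ω4 j = (nx w)^[j] X.c0 := hG.zz ω4 e4
  have hinj : ∀ i j, i < j → j ≤ m → (nx w)^[i] X.c0 ≠ (nx w)^[j] X.c0 := by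
    intro i j hij hj h
    rw [← hzz, ← hzz] at h
    have := Env.z_inj e4 (i := i) (j := j) (by omega) (by omega) h
    omega
  have h0 : ¬ InV (3 * L) (vx X.c0) := by
    unfold InV
    intro h
    rcases hc0 with h1 | h1
    · rw [lt_abs] at h1; omega
    · rw [lt_abs] at h1; omega
  have hcv : vx ((nx w)^[m] X.c0) = (0, 0) := by
    rw [← hzz, hmz]
    rcases hc with rfl | rfl | rfl | rfl <;> unfold vx <;> simp
  obtain ⟨τ, hτm, hτ, hbef, haft⟩ := gate (z := fun j => (nx w)^[j] X.c0) (l := 3 * L) (w := w)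
    (by linarith) H.moat (fun j => Function.iterate_succ_apply' _ _ _) h0 hcv hinj
  rw [show 2 * (3 * L) + 1 = 6 * L + 1 by ring] at hτ
  have hc4 : (nx w)^[m - τ] (6 * L + 1, 1) = c := by
    rw [← hτ, ← Function.iterate_add_apply, show m - τ + τ = m by omega, ← hzz, hmz]
  have e1 : X.K ω n = KK (nx w) (del w) X.c0 X.k0 τ +
      KK (nx w) (del w) (6 * L + 1, 1) 0 (m - τ) := by
    rw [hK, hG.KK' ω4 e4 m, ← hw]
    conv_lhs => rw [show m = τ + (m - τ) by omega]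
    rw [KK_add, hτ]
  rw [e1]
  congr 1
  · symm
    refine KF_eq hτ ?_ ?_
    · intro j hj h
      exact hinj j τ hj hτm (h.trans hτ.symm)
    · intro j hj
      exact H.agree_out (hbef j hj)
  · symm
    refine KF_eq hc4 ?_ ?_
    · intro j hj h
      have h3 : (nx w)^[j + τ] X.c0 = (nx w)^[m] X.c0 := by
        rw [Function.iterate_add_apply, hτ, h, ← hzz, hmz]
      exact hinj (j + τ) m (by omega) le_rfl h3
    · intro j hj
      have h3 := haft (j + τ) (by omega) (by omega)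
      simp only [Function.iterate_add_apply, hτ] at h3
      exact H.agree_in h3

end Pool.Agent.H53.ZF
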