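import Mathlib
import Pool.Agent.H53.ZF.Turn
import Pool.Agent.H95.ZF.Far
import Pool.Agent.H95.ZF.OSc
import Pool.Agent.H95.ZF.C1
import Pool.Agent.H39.ZF.OSM
import Pool.Agent.H79.ZF.C3
import Pool.Agent.H42.ZF.T7
import Pool.Agent.H34.ZF.T2
import Pool.Agent.H47.ZF.T4
import Pool.Agent.H59.ZF.T9
import Pool.Agent.H76.M7.TopH

set_option autoImplicit false

/-! # (c): zero-freeness implies `Q1` and the convergence to SLE(6), assembly -/

namespace Pool.Agent.H53.ZF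

open Pool.Agent.Q1 Pool.Agent.Q1.M4 Pool.Agent.Q1.M6c Pool.Agent.H47.NC

/-- the one-scale theorem -/
theorem os_all : OS :=
  Pool.Agent.H95.ZF.os_of Pool.Agent.H34.ZF.t2' Pool.Agent.H47.ZF.t4
    (t5_of Pool.Agent.H34.ZF.t2' Pool.Agent.H95.ZF.t6) Pool.Agent.H95.ZF.t6
    Pool.Agent.H42.ZF.t7

/-- mixing on the unit circle, unconditional -/
theorem mx_all : MX PlaneK := Pool.Agent.H39.ZF.mx_of os_all Pool.Agent.H59.ZF.t9

/-- `N1` (relative form) from zero-freeness -/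
theorem relN1_of (hZ : ZFE) : RelN1 PlaneK := Pool.Agent.H95.ZF.c1_done hZ mx_all

/-- holomorphy of the limits from zero-freeness -/
theorem holDob_of (hZ : ZFE) : HolDob := Pool.Agent.H79.ZF.c3_done (relN1_of hZ)

/-- **(c)**: `Q1` and the convergence to SLE(6) from zero-freeness -/
theorem q1_of_zfe (hZ : ZFE) : Pool.Agent.H81.Q1.Q1 ∧ Pool.Agent.H82.Q1.Q1SLE :=
  ⟨Pool.Agent.H76.M7.q1_of_holDob (holDob_of hZ),
    Pool.Agent.H76.M7.q1sle_of_holDob (holDob_of hZ)⟩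

end Pool.Agent.H53.ZF
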