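import Mathlib
import Pool.Agent.H53.ZF.Final
import Pool.Agent.H11.M7.Ori3
import Pool.Agent.H69.Car.Uniq
import Pool.Agent.H4.Q1.Exist

set_option autoImplicit false
open Set Filter Topology MeasureTheory
open Pool.Agent.H81.Q1 (pt DDomain Approx IsJordanDomain Curve)
open Pool.Agent.H82.Q1 (IsChart IsSLE posArc negArc)
open Pool.Agent.H42.MJ (IsComponent)

/-! # The final statement of Q1 (MP_fe58d8_pr), from `Q1SLE`

Corollary A (`Pool.Agent.H11.M7.corollaryA'`), the theorem of Caratheodory (`exists_chart`) and the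
uniqueness of the charts (`chart_unique`) are used. -/

namespace Pool.Agent.H53.ZF

lemma posArc_scale {φ φ' : ℂ → ℂ} {b : ℂ} {k : ℝ} (hk : 0 < k)
    (h : ∀ z ∈ Pool.Agent.H82.Q1.cHH, φ' z = φ (k * z)) : posArc φ' b = posArc φ b := by
  unfold posArc
  congr 1
  ext p
  constructor
  · rintro ⟨z, ⟨h1, h2⟩, rfl⟩
    refine ⟨k * z, ⟨by simp [h1], ?_⟩, ?_⟩
    · rw [Complex.re_ofReal_mul]; positivity
    · rw [h z (le_of_eq h1.symm)]
  · rintro ⟨z, ⟨h1, h2⟩, rfl⟩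
    refine ⟨(k⁻¹ : ℝ) * z, ⟨by simp [h1], ?_⟩, ?_⟩
    · rw [Complex.re_ofReal_mul]; positivity
    · rw [h ((k⁻¹ : ℝ) * z) (show (0:ℝ) ≤ (((k⁻¹ : ℝ) : ℂ) * z).im by rw [Complex.im_ofReal_mul, h1, mul_zero])]
      rw [← mul_assoc, ← Complex.ofReal_mul, mul_inv_cancel₀ hk.ne', Complex.ofReal_one, one_mul]

lemma negArc_scale {φ φ' : ℂ → ℂ} {b : ℂ} {k : ℝ} (hk : 0 < k)
    (h : ∀ z ∈ Pool.Agent.H82.Q1.cHH, φ' z = φ (k * z)) : negArc φ' b = negArc φ b := by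
  unfold negArc
  congr 1
  ext p
  constructor
  · rintro ⟨z, ⟨h1, h2⟩, rfl⟩
    refine ⟨k * z, ⟨by simp [h1], ?_⟩, ?_⟩
    · rw [Complex.re_ofReal_mul]; exact mul_nonpos_of_nonneg_of_nonpos hk.le h2
    · rw [h z (le_of_eq h1.symm)]
  · rintro ⟨z, ⟨h1, h2⟩, rfl⟩
    refine ⟨(k⁻¹ : ℝ) * z, ⟨by simp [h1], ?_⟩, ?_⟩
    · rw [Complex.re_ofReal_mul]; exact mul_nonpos_of_nonneg_of_nonpos (by positivity) h2
    · rw [h ((k⁻¹ : ℝ) * z) (show (0:ℝ) ≤ (((k⁻¹ : ℝ) : ℂ) * z).im by rw [Complex.im_ofReal_mul, h1, mul_zero])]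
      rw [← mul_assoc, ← Complex.ofReal_mul, mul_inv_cancel₀ hk.ne', Complex.ofReal_one, one_mul]

/-- **The final statement**: for every bounded Jordan domain `D` and distinct boundary points `a`, `b`
the law of chordal SLE(6) in `(D, a, b)` exists; for all small `δ` the largest component of the part of
`δ ℤ²` in `D` has marks near `a` and `b`; and the exploration paths of critical bond percolation
on `δ ℤ²` converge to SLE(6) in law, for the components of the part of `δ ℤ²` in `D` and for all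
approximating sequences. -/
def Full : Prop :=
  ∀ D : Set ℂ, IsJordanDomain D → ∀ a ∈ frontier D, ∀ b ∈ frontier D, a ≠ b →
    (∃ φ : ℂ → ℂ, IsChart D a b φ) ∧
    (∀ ε : ℝ, 0 < ε → ∃ δ0 : ℝ, 0 < δ0 ∧ ∀ δ : ℝ, 0 < δ → δ < δ0 → ∃ X : DDomain,
      IsComponent D δ X.V X.E ∧ (∀ V E, IsComponent D δ V E → V.ncard ≤ X.V.ncard) ∧
      dist (pt δ X.α.1) a < ε ∧ dist (pt δ X.β.1) b < ε) ∧
    ∃ μ : ProbabilityMeasure Curve, IsSLE 6 D a b μ ∧
      (∀ (δ : ℕ → ℝ) (X : ℕ → DDomain), (∀ n, 0 < δ n) → Tendsto δ atTop (𝓝 0) →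
        (∀ n, IsComponent D (δ n) (X n).V (X n).E) →
        Tendsto (fun n => pt (δ n) (X n).α.1) atTop (𝓝 a) →
        Tendsto (fun n => pt (δ n) (X n).β.1) atTop (𝓝 b) →
        Tendsto (fun n => (X n).law (δ n)) atTop (𝓝 μ)) ∧
      ∀ φ : ℂ → ℂ, IsChart D a b φ → ∀ A : Approx D a b (posArc φ b) (negArc φ b),
        Tendsto A.law atTop (𝓝 μ)

theorem full_of_q1sle (h : Pool.Agent.H82.Q1.Q1SLE) : Full := by
  intro D hD a ha b hb hab
  obtain ⟨φ, hφ⟩ := Pool.Agent.H69.Car.exists_chart hD ha hb hab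
  obtain ⟨μ, hμ, hA⟩ := h D hD a b hab φ hφ
  refine ⟨⟨φ, hφ⟩, fun ε hε => ?_, μ, hμ, ?_, ?_⟩
  · obtain ⟨δ0, h0, h1⟩ := Pool.Agent.H4.Q1.exists_largest hD ha hb hab hε
    exact ⟨δ0, h0, h1⟩
  · intro δ X pos lim hX limα limβ
    obtain ⟨A, rfl, rfl⟩ := Pool.Agent.H11.M7.corollaryA' hD hφ δ X pos lim hX limα limβ
    exact hA A
  · intro φ' h'
    obtain ⟨k, hk, hkφ⟩ := Pool.Agent.H69.Car.chart_unique hφ h'
    rw [posArc_scale hk hkφ, negArc_scale hk hkφ]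
    exact hA

theorem full_of_zfe (h : ZFE) : Full := full_of_q1sle (q1_of_zfe h).2

end Pool.Agent.H53.ZF
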