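import Mathlib
import Pool.Agent.H53.ZF.Full
import Pool.Agent.ZM.Main

set_option autoImplicit false

/-! # (ALT) implies the full answer to Q1 of MP_fe58d8_pr (in our reading)

Conditional on (ALT) (`Pool.Agent.ZM.ALTHyp`, `Pool.Agent.ZM.ALTCount`); not a hand-in. -/

namespace Pool.Agent.H53.ZF

theorem q1_of_alt (h : Pool.Agent.ZM.ALTHyp) :
    Pool.Agent.H81.Q1.Q1 ∧ Pool.Agent.H82.Q1.Q1SLE :=
  q1_of_zfe (Pool.Agent.ZM.zfe_of_alt h)

theorem q1_of_altCount (h : Pool.Agent.ZM.ALTCount) :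
    Pool.Agent.H81.Q1.Q1 ∧ Pool.Agent.H82.Q1.Q1SLE :=
  q1_of_zfe (Pool.Agent.ZM.zfe_of_count h)

theorem full_of_alt (h : Pool.Agent.ZM.ALTHyp) : Full := full_of_zfe (Pool.Agent.ZM.zfe_of_alt h)

theorem full_of_altCount (h : Pool.Agent.ZM.ALTCount) : Full :=
  full_of_zfe (Pool.Agent.ZM.zfe_of_count h)

end Pool.Agent.H53.ZF
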